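import Pool.Agent.Lib_helper24.K4D2.Full
import Pool.Agent.Lib_helper66.K4M.G0b

/-!
Project K4M, target 2: all hypotheses hold over an algebraically closed field of characteristic
zero.
-/

set_option autoImplicit false
set_option linter.unusedSectionVars false

open scoped TensorProduct

namespace Pool.Agent.K4D2

open Finset Pool.Agent.K4ParP K4M WeierstrassCurve.Affine

section Closed

variable {F : Type*} [Field F] [DecidableEq F] [CharZero F] [IsAlgClosed F]
  {W : WeierstrassCurve.Affine F}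

/-- the `n`-torsion points are finite in number -/
noncomputable instance fin_tor (n : ℕ) : Fintype (tor (TP W) (n + 1)) := by
  haveI : Finite (torS (TP W) (n + 1)) := finite_torS' (n + 1) (Nat.succ_pos n)
  have h : torS (TP W) (n + 1) = tor (TP W) (n + 1) := by
    ext x
    exact Iff.rfl
  rw [← h]
  exact Fintype.ofFinite _

lemma h2_closed (hΔ : W.Δ ≠ 0) (P : W.Point) : ∃ Q, Q + Q = P := by
  obtain ⟨Q, hQ⟩ := k_div hΔ (k := 2) two_ne_zero P
  exact ⟨Q, by rw [← two_nsmul]; exact hQ⟩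

/-- the group of torsion points is divisible with `n²` points of order dividing `n` -/
theorem td_closed (hΔ : W.Δ ≠ 0) : TD (TP W) where
  tors a := by
    obtain ⟨n, hn, h⟩ := TP_tor a
    obtain ⟨m, rfl⟩ := Nat.exists_eq_succ_of_ne_zero hn.ne'
    exact ⟨m, h⟩
  div n a := by
    obtain ⟨Q, hQ⟩ := k_div hΔ (k := n + 1) (Nat.succ_ne_zero n) (a : W.Point)
    have hQT : Q ∈ TP W := by
      rw [mem_TP]
      obtain ⟨m, hm, h⟩ := TP_tor a
      refine ⟨m * (n + 1), Nat.mul_pos hm (Nat.succ_pos n), ?_⟩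
      rw [mul_smul, hQ, ← AddSubgroup.coe_nsmul, h]
      rfl
    exact ⟨⟨Q, hQT⟩, Subtype.ext hQ⟩
  card n := by
    rw [← Nat.card_eq_fintype_card, ← card_tors hΔ (k := n + 1) (Nat.succ_ne_zero n)]
    refine Nat.card_congr ⟨fun x => ⟨((x : TP W) : W.Point), ?_⟩,
      fun y => ⟨⟨(y : W.Point), ?_⟩, ?_⟩, fun x => rfl, fun y => rfl⟩
    · have h : (n + 1) • (x : TP W) = 0 := mem_tor.mp x.2
      rw [← AddSubgroup.coe_nsmul, h]; rfl
    · rw [mem_TP]; exact ⟨n + 1, Nat.succ_pos n, y.2⟩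
    · rw [mem_tor]
      exact Subtype.ext y.2

/-- existence and uniqueness of `t` on all torsion points -/
theorem exists_unique_closed (hΔ : W.Δ ≠ 0) :
    ∃! t : TP W → TP W → B2 F, IsT t ∧ ∀ P a b c d, fT (h2_closed hΔ) P a b c d = CR t P a b c d :=
  exists_unique_tT (h2_closed hΔ) (TD.third (td_closed hΔ))

/-- coboundary of `t` -/
theorem de_closed (hΔ : W.Δ ≠ 0) {t : TP W → TP W → B2 F} (ht : IsT t)
    (hC : ∀ P a b c d, fT (h2_closed hΔ) P a b c d = CR t P a b c d) (a b : TP W) :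
    de F (t a b) = tt (wg F) gT a b :=
  de_t (h2_closed hΔ) (K4M.TD.half (td_closed hΔ)) ht hC a b

/-- all Manin and distribution relations modulo `Dec F` -/
theorem dist_closed (hΔ : W.Δ ≠ 0) {t : TP W → TP W → B2 F} (ht : IsT t)
    (hC : ∀ P a b c d, fT (h2_closed hΔ) P a b c d = CR t P a b c d) :
    Pool.Agent.K4TL.Dist (TF (TP W)) (xq t gT) :=
  dist_full (td_closed hΔ) (h2_closed hΔ) ht hC

/-- **Hecke relations modulo `Dec F`** -/
theorem hecke_closed (hΔ : W.Δ ≠ 0) {t : TP W → TP W → B2 F} (ht : IsT t)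
    (hC : ∀ P a b c d, fT (h2_closed hΔ) P a b c d = CR t P a b c d)
    {l : ℕ} (hl : l.Prime) (x y : TP W) :
    (l : ℚ) • ∑ C ∈ Pool.Agent.K4TL.subs (TF (TP W)) l, ∑ c ∈ Pool.Agent.K4TL.el (TF (TP W)) l C,
      ∑ c' ∈ Pool.Agent.K4TL.el (TF (TP W)) l C, xq t gT (x + c) (y + c') =
      ∑ M ∈ Pool.Agent.K4TL.XX l,
        xq t gT (M.1 • x + M.2.1 • y) (M.2.2.1 • x + M.2.2.2 • y) :=
  hecke_full (td_closed hΔ) (h2_closed hΔ) ht hC hl x y

end Closed

end Pool.Agent.K4D2
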