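import Pool.Agent.Lib_helper86.K4.ParP

/-!
Project K4M, target 2: the distribution relation `D2(l)` in the time domain.
Base file: `t = g ∧ g + g ∧ g + g ∧ g`, the distribution relation of `t`, the local set-up.
-/

set_option autoImplicit false
set_option linter.unusedSectionVars false

namespace Pool.Agent.K4D2

open Finset Pool.Agent.K4ParP

variable {A B G H : Type*} [AddCommGroup A] [AddCommGroup B] [Module ℚ B]
  [AddCommGroup G] [Module ℚ G] [AddCommGroup H] [Module ℚ H]

/-- `t(a,b) = g_a ∧ g_b + g_b ∧ g_{a+b} + g_{a+b} ∧ g_a` -/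
def tt (w : G →ₗ[ℚ] G →ₗ[ℚ] B) (g : A → G) (a b : A) : B :=
  w (g a) (g b) + w (g b) (g (a + b)) + w (g (a + b)) (g a)

/-- The four term relation in the time domain. -/
def R4v (m : B →ₗ[ℚ] G →ₗ[ℚ] H) (t : A → A → B) (g : A → G) (e q s : A) : H :=
  m (t (e + s) q) (g s - g (e + q)) + m (t (e + q) s) (g q - g (e + s))
    + m (t e q) (g (e + s) - g s) + m (t e s) (g (e + q) - g q)
    + (1 / 3 : ℚ) • (xi m t g (e + s) q - xi m t g q (e + q) + xi m t g (e + q) s
      - xi m t g s (e + s) + (2 : ℚ) • xi m t g (e + s) (e + q) + (2 : ℚ) • xi m t g q s)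

section alt

variable {w : G →ₗ[ℚ] G →ₗ[ℚ] B} {g : A → G}

lemma w_swap (hw : ∀ x, w x x = 0) (x y : G) : w y x = - w x y := by
  have h := hw (x + y)
  simp only [map_add, LinearMap.add_apply, hw, zero_add, add_zero] at h
  exact eq_neg_of_add_eq_zero_left h

lemma tt_isT (hw : ∀ x, w x x = 0) (hg : IsG g) : IsT (tt w g) where
  swap a b := by
    unfold tt
    rw [add_comm b a, w_swap hw (g a) (g b), w_swap hw (g (a + b)) (g a),
      w_swap hw (g b) (g (a + b))]
    abel
  rot a b := by
    unfold tt
    rw [show b + (-a - b) = -a by abel, hg a, show -a - b = -(a + b) by abel, hg (a + b)]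
    abel
  even a b := by
    unfold tt
    rw [hg a, hg b, show -a + -b = -(a + b) by abel, hg (a + b)]

lemma tt_zero_left (hw : ∀ x, w x x = 0) (b : A) : tt w g 0 b = 0 := by
  unfold tt
  rw [zero_add, hw, w_swap hw (g 0) (g b)]
  abel

lemma tt_zero_right (hw : ∀ x, w x x = 0) (a : A) : tt w g a 0 = 0 := by
  unfold tt
  rw [add_zero, hw, w_swap hw (g a) (g 0)]
  abel

lemma tt_neg_self (hw : ∀ x, w x x = 0) (hg : IsG g) (a : A) : tt w g a (-a) = 0 := by
  unfold tt
  rw [hg a, hw, w_swap hw (g (a + -a)) (g a)]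
  abel

end alt

section sub

variable {V : Type*} [AddCommMonoid V] (L : AddSubgroup A) [Fintype L]

lemma s_shift (f : A → V) {j : A} (hj : j ∈ L) : ∑ i : L, f (i + j) = ∑ i : L, f i :=
  Equiv.sum_comp (Equiv.addRight (⟨j, hj⟩ : L)) (fun i : L => f i)

lemma s_shift_sub (f : A → V) {j : A} (hj : j ∈ L) : ∑ i : L, f (i - j) = ∑ i : L, f i := by
  have := s_shift L f (neg_mem hj)
  simpa only [← sub_eq_add_neg] using this

lemma s_neg (f : A → V) : ∑ i : L, f (-i) = ∑ i : L, f i :=
  Equiv.sum_comp (Equiv.neg L) (fun i : L => f i)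

end sub

/-- `∑_{i ∈ L} g(a+i) = g(la) + e [la = 0]` -/
def DG (g : A → G) (l : ℕ) (L : AddSubgroup A) [Fintype L] (e : G) : Prop :=
  ∀ a, ∑ i : L, g (a + i) = g (l • a) + open Classical in (if l • a = 0 then e else 0)

section dt

variable {w : G →ₗ[ℚ] G →ₗ[ℚ] B} {g : A → G} {l : ℕ} {L : AddSubgroup A} [Fintype L] {e : G}

lemma DG.ne (h : DG g l L e) {a : A} (ha : l • a ≠ 0) : ∑ i : L, g (a + i) = g (l • a) := by
  rw [h a, if_neg ha, add_zero]

lemma DG.eq0 (h : DG g l L e) {a : A} (ha : l • a = 0) : ∑ i : L, g (a + i) = g 0 + e := by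
  rw [h a, if_pos ha, ha]

lemma DG.sub (h : DG g l L e) (a : A) : ∑ i : L, g (a - i) = ∑ i : L, g (a + i) := by
  rw [← s_neg L (fun x => g (a + x))]
  simp only [sub_eq_add_neg]

/-- the distribution relation of `t` -/
lemma dt (hw : ∀ x, w x x = 0) (hg : IsG g) (h : DG g l L e) (a b : A) :
    ∑ i : L, ∑ j : L, tt w g (a + i) (b + j) = tt w g (l • a) (l • b) := by
  set S : A → G := fun x => ∑ i : L, g (x + i) with hS
  have hsh : ∀ (x : A) (j : L), S (x + j) = S x := by
    intro x j
    rw [hS]
    simp only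
    have := s_shift L (fun y => g (x + y)) j.2
    rw [← this]
    refine Finset.sum_congr rfl fun i _ => ?_
    congr 1; abel
  have key : ∑ i : L, ∑ j : L, tt w g (a + i) (b + j) =
      w (S a) (S b) + w (S b) (S (a + b)) + w (S (a + b)) (S a) := by
    unfold tt
    simp only [Finset.sum_add_distrib]
    congr 1
    · congr 1
      · rw [hS]
        simp only [map_sum, LinearMap.sum_apply]
        exact Finset.sum_comm
      · rw [Finset.sum_comm]
        have : ∀ j : L, ∑ i : L, w (g (b + j)) (g (a + i + (b + j))) =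
            w (g (b + j)) (S (a + b)) := by
          intro j
          rw [← hsh (a + b) j, hS]
          simp only [map_sum]
          refine Finset.sum_congr rfl fun i _ => ?_
          congr 2; abel
        rw [Finset.sum_congr rfl fun j _ => this j, hS]
        simp only [map_sum, LinearMap.sum_apply]
        exact Finset.sum_comm
    · have : ∀ i : L, ∑ j : L, w (g (a + i + (b + j))) (g (a + i)) =
            w (S (a + b)) (g (a + i)) := by
        intro i
        rw [← hsh (a + b) i, hS]
        simp only [map_sum, LinearMap.sum_apply]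
        refine Finset.sum_congr rfl fun j _ => ?_
        congr 3; abel
      rw [Finset.sum_congr rfl fun i _ => this i, hS]
      simp only [map_sum]
  rw [key]
  have hSv : ∀ x, S x = g (l • x) + open Classical in (if l • x = 0 then e else 0) := fun x => h x
  have hab : l • (a + b) = l • a + l • b := smul_add _ _ _
  by_cases ha : l • a = 0
  · have e1 : S (a + b) = S b := by rw [hSv, hSv, hab, ha, zero_add]
    rw [e1, hw, ha, tt_zero_left hw, w_swap hw (S a) (S b)]
    abel
  by_cases hb : l • b = 0
  · have e1 : S (a + b) = S a := by rw [hSv, hSv, hab, hb, add_zero]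
    rw [e1, hw, hb, tt_zero_right hw, w_swap hw (S a) (S b)]
    abel
  by_cases hc : l • (a + b) = 0
  · have hba : l • b = -(l • a) := by
      rw [hab] at hc
      exact eq_neg_of_add_eq_zero_right hc
    have e1 : S b = S a := by
      rw [hSv, hSv, hba, hg, neg_eq_zero]
    rw [e1, hw, hba, tt_neg_self hw hg, w_swap hw (S a) (S (a + b))]
    abel
  · rw [hSv a, hSv b, hSv (a + b), if_neg ha, if_neg hb, if_neg hc, hab]
    simp only [add_zero]
    rfl

end dt

end Pool.Agent.K4D2
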