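import Pool.Agent.Lib_helper24.K4D2.ModDec
import Pool.Agent.Lib_helper60.K4M.GT3
import Pool.Agent.Lib_helper86.K4.TGlue

/-!
Project K4M, target 2: `D2` and the Hecke relation in `H(F)` modulo `Dec F` for all torsion points.
-/

set_option autoImplicit false
set_option linter.unusedSectionVars false

open scoped TensorProduct

namespace Pool.Agent.K4D2

open Finset Pool.Agent.K4ParP K4M WeierstrassCurve.Affine

section Full

variable {F : Type*} [Field F] [DecidableEq F] [CharZero F] {W : WeierstrassCurve.Affine F}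

/-- the symbols of the pencils, on torsion points -/
noncomputable def fT (h2 : ∀ P : W.Point, ∃ Q, Q + Q = P) (P a b c d : TP W) : B2 F :=
  ff h2 (P : W.Point) a b c d

/-- coboundary of the symbols of the pencils -/
lemma relD_fT (h2 : ∀ P : W.Point, ∃ Q, Q + Q = P) {P Q : TP W} (hQ : Q + Q = P)
    {a b c d : TP W} (hab : a ≠ b) (hab' : a + b + P ≠ 0) (hac : a ≠ c) (hac' : a + c + P ≠ 0)
    (had : a ≠ d) (had' : a + d + P ≠ 0) (hbc : b ≠ c) (hbc' : b + c + P ≠ 0)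
    (hbd : b ≠ d) (hbd' : b + d + P ≠ 0) (hcd : c ≠ d) (hcd' : c + d + P ≠ 0) :
    de F (fT h2 P a b c d) =
      wg F (ss gT P a d + ss gT P b c - ss gT P a c - ss gT P b d)
        (ss gT P a b + ss gT P c d - ss gT P a c - ss gT P b d) := by
  obtain ⟨nab, eab⟩ := ss_gT hQ hab hab'
  obtain ⟨nac, eac⟩ := ss_gT hQ hac hac'
  obtain ⟨nad, ead⟩ := ss_gT hQ had had'
  obtain ⟨nbc, ebc⟩ := ss_gT hQ hbc hbc'
  obtain ⟨nbd, ebd⟩ := ss_gT hQ hbd hbd'
  obtain ⟨ncd, ecd⟩ := ss_gT hQ hcd hcd'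
  set D : TP W → TP W → F := fun x y => dx ((x + Q : TP W) : W.Point) ((y + Q : TP W) : W.Point)
    with hD
  have hDb : Bracket D := ⟨fun x y => dx_bracket.anti _ _, fun x y z t => dx_bracket.pl _ _ _ _⟩
  set f : F := D a b * D c d / (D a c * D b d) with hf
  have hfT : fT h2 P a b c d = sy f := by
    unfold fT
    rw [ff_eq h2 (R := (Q : W.Point)) (by rw [← hQ]; rfl)]
    rfl
  have h1f : 1 - f = D a d * D b c / (D a c * D b d) := by
    rw [hf, eq_div_iff (mul_ne_zero nac nbd), sub_mul, div_mul_cancel₀ _ (mul_ne_zero nac nbd)]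
    linear_combination -(hDb.pl a b c d)
  have l1 : lg f = ss gT P a b + ss gT P c d - ss gT P a c - ss gT P b d := by
    rw [hf, lg_div (mul_ne_zero nab ncd) (mul_ne_zero nac nbd), lg_mul nab ncd, lg_mul nac nbd]
    rw [show lg (D a b) = _ from eab, show lg (D c d) = _ from ecd, show lg (D a c) = _ from eac,
      show lg (D b d) = _ from ebd]
    abel
  have l2 : lg (1 - f) = ss gT P a d + ss gT P b c - ss gT P a c - ss gT P b d := by
    rw [h1f, lg_div (mul_ne_zero nad nbc) (mul_ne_zero nac nbd), lg_mul nad nbc, lg_mul nac nbd]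
    rw [show lg (D a d) = _ from ead, show lg (D b c) = _ from ebc, show lg (D a c) = _ from eac,
      show lg (D b d) = _ from ebd]
    abel
  rw [hfT, de_sy, l1, l2]

/-- `δ t(a,b) = g_a ∧ g_b + g_b ∧ g_{a+b} + g_{a+b} ∧ g_a` for all torsion points -/
theorem de_t (h2 : ∀ P : W.Point, ∃ Q, Q + Q = P) (h2' : ∀ P : TP W, ∃ Q, Q + Q = P)
    {t : TP W → TP W → B2 F} (ht : IsT t) (hC : ∀ P a b c d, fT h2 P a b c d = CR t P a b c d)
    (a b : TP W) : de F (t a b) = tt (wg F) gT a b := by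
  classical
  obtain ⟨n, hn, ha, hb⟩ := TP_LF.two a b
  haveI : Finite (torS (TP W) n) := finite_torS' n hn
  haveI := Fintype.ofFinite (torS (TP W) n)
  set A := torS (TP W) n with hA
  have htA : IsT (fun u v : A => t (u : TP W) (v : TP W)) :=
    ⟨fun u v => ht.swap _ _, fun u v => ht.rot _ _, fun u v => ht.even _ _⟩
  have hgA : IsG (fun u : A => gT (u : TP W)) := fun u => gT_neg _
  have hr : ∀ P : A, RelD (de F) (wg F) (fun u v : A => t (u : TP W) (v : TP W))
      (fun u : A => gT (u : TP W)) P := by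
    intro P x y z v h1 h2a h3 h4 h5 h6 h7 h8 h9 h10 h11 h12
    obtain ⟨Q, hQ⟩ := h2' (P : TP W)
    have ne : ∀ {x y : A}, x ≠ y → (x : TP W) ≠ y := fun h h' => h (Subtype.ext h')
    have ne' : ∀ {x y : A}, x + y + P ≠ 0 → (x : TP W) + y + P ≠ 0 := fun h h' =>
      h (Subtype.ext h')
    have key := relD_fT h2 hQ (ne h1) (ne' h2a) (ne h3) (ne' h4) (ne h5) (ne' h6) (ne h7) (ne' h8)
      (ne h9) (ne' h10) (ne h11) (ne' h12)
    rw [hC] at key
    exact key
  have ha' : a ∈ A := by rw [hA, mem_torS]; exact ha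
  have hb' : b ∈ A := by rw [hA, mem_torS]; exact hb
  exact delta_t wg_self htA hgA hr ⟨a, ha'⟩ ⟨b, hb'⟩

/-- existence and uniqueness of `t` on all torsion points -/
theorem exists_unique_tT (h2 : ∀ P : W.Point, ∃ Q, Q + Q = P)
    (h3 : ∀ P : TP W, ∃ Q, Q + Q + Q = P) :
    ∃! t : TP W → TP W → B2 F, IsT t ∧ ∀ P a b c d, fT h2 P a b c d = CR t P a b c d := by
  have hf : IsF (fT h2 : TP W → TP W → TP W → TP W → TP W → B2 F) :=
    (isF_ff (pencil W) h2).restrict (TP W)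
  exact exists_unique_t hf TP_tor (fun n hn => finite_torS' n hn) h3

variable [∀ n : ℕ, Fintype (tor (TP W) (n + 1))]

lemma TD.third (hT : TD (TP W)) (P : TP W) : ∃ Q : TP W, Q + Q + Q = P := by
  obtain ⟨Q, hQ⟩ := hT.div 2 P
  exact ⟨Q, by rw [← hQ]; abel⟩

/-- all relations modulo `Dec F` -/
theorem dist_full (hT : TD (TP W)) (h2 : ∀ P : W.Point, ∃ Q, Q + Q = P)
    {t : TP W → TP W → B2 F} (ht : IsT t) (hC : ∀ P a b c d, fT h2 P a b c d = CR t P a b c d) :
    Pool.Agent.K4TL.Dist (TF (TP W)) (xq t gT) := by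
  obtain ⟨s, hs⟩ := glob (m := mm F) hT mm_rel
  exact dist_mod hT (de_t h2 (K4M.TD.half hT) ht hC) hs

/-- **Hecke relation modulo `Dec F`** -/
theorem hecke_full (hT : TD (TP W)) (h2 : ∀ P : W.Point, ∃ Q, Q + Q = P)
    {t : TP W → TP W → B2 F} (ht : IsT t) (hC : ∀ P a b c d, fT h2 P a b c d = CR t P a b c d)
    {l : ℕ} (hl : l.Prime) (x y : TP W) :
    (l : ℚ) • ∑ C ∈ Pool.Agent.K4TL.subs (TF (TP W)) l, ∑ c ∈ Pool.Agent.K4TL.el (TF (TP W)) l C,
      ∑ c' ∈ Pool.Agent.K4TL.el (TF (TP W)) l C, xq t gT (x + c) (y + c') =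
      ∑ M ∈ Pool.Agent.K4TL.XX l,
        xq t gT (M.1 • x + M.2.1 • y) (M.2.2.1 • x + M.2.2.2 • y) := by
  obtain ⟨s, hs⟩ := glob (m := mm F) hT mm_rel
  exact hecke_mod hT (de_t h2 (K4M.TD.half hT) ht hC) hs hl x y

end Full

end Pool.Agent.K4D2
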