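import Pool.Agent.Lib_helper24.K4D2.Star

/-!
Project K4M, target 2: `D2(l)` for all `l` and all pairs, by induction on `l` and a sup norm.
-/

set_option autoImplicit false
set_option linter.unusedSectionVars false

namespace Pool.Agent.K4D2

open Finset Pool.Agent.K4ParP

/-- the `k`-torsion subgroup -/
def tor (A : Type*) [AddCommGroup A] (k : ℕ) : AddSubgroup A := (nsmulAddMonoidHom (α := A) k).ker

lemma mem_tor {A : Type*} [AddCommGroup A] {k : ℕ} {a : A} : a ∈ tor A k ↔ k • a = 0 :=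
  AddMonoidHom.mem_ker

section sup

variable {T : Type*} [AddCommGroup T] [Finite T]

lemma sup_zero (f : T → T → ℚ) (c1 c2 c3 : ℚ)
    (rec : ∀ p r, c1 * f p r = c2 * f p (p + r) + c3 * f (p + r) r)
    (h : |c2| + |c3| < |c1| ∨ |c1| + |c3| < |c2|) (p r : T) : f p r = 0 := by
  obtain ⟨⟨p0, r0⟩, hmax⟩ := Finite.exists_max (fun x : T × T => |f x.1 x.2|)
  simp only at hmax
  have key : |f p0 r0| = 0 := by
    rcases h with h | h
    · have h1 := rec p0 r0
      have h2 : |c1| * |f p0 r0| ≤ |c2| * |f p0 r0| + |c3| * |f p0 r0| := by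
        rw [← abs_mul, h1]
        refine (abs_add_le _ _).trans ?_
        rw [abs_mul, abs_mul]
        exact add_le_add (mul_le_mul_of_nonneg_left (hmax (p0, p0 + r0)) (abs_nonneg _))
          (mul_le_mul_of_nonneg_left (hmax (p0 + r0, r0)) (abs_nonneg _))
      by_contra h0
      have h3 : 0 < |f p0 r0| := lt_of_le_of_ne (abs_nonneg _) (Ne.symm h0)
      nlinarith
    · have h1 := rec p0 (r0 - p0)
      rw [show p0 + (r0 - p0) = r0 by abel] at h1
      have h2 : |c2| * |f p0 r0| ≤ |c1| * |f p0 r0| + |c3| * |f p0 r0| := by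
        rw [← abs_mul, show c2 * f p0 r0 = c1 * f p0 (r0 - p0) - c3 * f r0 (r0 - p0) by
          rw [h1]; ring]
        refine (abs_sub _ _).trans ?_
        rw [abs_mul, abs_mul]
        exact add_le_add (mul_le_mul_of_nonneg_left (hmax (p0, r0 - p0)) (abs_nonneg _))
          (mul_le_mul_of_nonneg_left (hmax (r0, r0 - p0)) (abs_nonneg _))
      by_contra h0
      have h3 : 0 < |f p0 r0| := lt_of_le_of_ne (abs_nonneg _) (Ne.symm h0)
      nlinarith
  have h4 := hmax (p, r)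
  rw [key] at h4
  exact abs_eq_zero.mp (le_antisymm h4 (abs_nonneg _))

end sup

lemma coef (n : ℕ) : |2 * ((n + 2 : ℕ) : ℚ) ^ 2| + |2 - ((n + 1 : ℕ) : ℚ) ^ 3| <
      |2 * ((n + 1 : ℕ) : ℚ) ^ 3 + 6 * ((n + 1 : ℕ) : ℚ) ^ 2 - ((n + 2 : ℕ) : ℚ) ^ 2 - 1| ∨
    |2 * ((n + 1 : ℕ) : ℚ) ^ 3 + 6 * ((n + 1 : ℕ) : ℚ) ^ 2 - ((n + 2 : ℕ) : ℚ) ^ 2 - 1| +
      |2 - ((n + 1 : ℕ) : ℚ) ^ 3| < |2 * ((n + 2 : ℕ) : ℚ) ^ 2| := by
  rcases Nat.eq_zero_or_pos n with rfl | hn
  · right; norm_num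
  · left
    have h1 : (1 : ℚ) ≤ n := by exact_mod_cast hn
    push_cast
    obtain ⟨x, hx⟩ : ∃ x : ℚ, (n : ℚ) = x + 1 := ⟨n - 1, by ring⟩
    have hx0 : 0 ≤ x := by linarith
    rw [hx]
    have a1 : |2 * (x + 1 + 2) ^ 2| = 2 * (x + 1 + 2) ^ 2 := abs_of_nonneg (by positivity)
    have a2 : |2 - (x + 1 + 1) ^ 3| = (x + 1 + 1) ^ 3 - 2 := by
      rw [abs_sub_comm]
      apply abs_of_nonneg
      have : (0 : ℚ) ≤ x ^ 3 + 6 * x ^ 2 + 12 * x := by positivity
      nlinarith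
    have a3 : |2 * (x + 1 + 1) ^ 3 + 6 * (x + 1 + 1) ^ 2 - (x + 1 + 2) ^ 2 - 1| =
        2 * (x + 1 + 1) ^ 3 + 6 * (x + 1 + 1) ^ 2 - (x + 1 + 2) ^ 2 - 1 := by
      apply abs_of_nonneg
      have : (0 : ℚ) ≤ x ^ 3 + x ^ 2 + x := by positivity
      nlinarith
    rw [a1, a2, a3]
    have : (0 : ℚ) ≤ x ^ 3 + 9 * x ^ 2 + 18 * x := by positivity
    nlinarith

variable {A B G H : Type*} [AddCommGroup A] [AddCommGroup B] [Module ℚ B]
  [AddCommGroup G] [Module ℚ G] [AddCommGroup H] [Module ℚ H]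

/-- a torsion group, divisible, with `n²` elements of order dividing `n` -/
structure TD (A : Type*) [AddCommGroup A] [∀ n : ℕ, Fintype (tor A (n + 1))] : Prop where
  tors : ∀ a : A, ∃ n : ℕ, (n + 1) • a = 0
  div : ∀ (n : ℕ) (a : A), ∃ b, (n + 1) • b = a
  card : ∀ n : ℕ, Fintype.card (tor A (n + 1)) = (n + 1) ^ 2

/-- the global hypotheses -/
structure Glob (w : G →ₗ[ℚ] G →ₗ[ℚ] B) (m : B →ₗ[ℚ] G →ₗ[ℚ] H) (g : A → G)
    [∀ n : ℕ, Fintype (tor A (n + 1))] (e : ℕ → G) : Prop where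
  alt : ∀ x, w x x = 0
  even : IsG g
  par : ∀ a b, xi m (tt w g) g a (-b) = - xi m (tt w g) g a b
  r4 : ∀ e q s, R4v m (tt w g) g e q s = 0
  dg : ∀ n, DG g (n + 1) (tor A (n + 1)) (e n)
  d1 : ∀ n a b, ∑ i : tor A (n + 1), ∑ j : tor A (n + 1), xi m (tt w g) g (a + i) (b + j) =
    (((n + 1 : ℕ) : ℚ) ^ 2)⁻¹ • xi m (tt w g) g ((n + 1) • a) ((n + 1) • b)

section ind

variable {w : G →ₗ[ℚ] G →ₗ[ℚ] B} {m : B →ₗ[ℚ] G →ₗ[ℚ] H} {g : A → G}
  [∀ n : ℕ, Fintype (tor A (n + 1))] {e : ℕ → G}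

lemma Glob.loc (hT : TD A) (h : Glob w m g e) (n : ℕ) :
    Loc w m g (n + 1 + 1) (n + 1) (tor A (n + 1 + 1)) (tor A (n + 1)) (e (n + 1)) (e n) where
  alt := h.alt
  even := h.even
  par := h.par
  r4 := h.r4
  hl := rfl
  hκ := Nat.succ_pos n
  tL := fun _ hi => mem_tor.mp hi
  tK := fun _ hi => mem_tor.mp hi
  cL := hT.card (n + 1)
  cK := hT.card n
  dL := h.dg (n + 1)
  dK := h.dg n
  d1L := h.d1 (n + 1)
  d1K := h.d1 n

lemma Def_congr (X : A → A → H) (l : ℕ) [Fintype (tor A l)] (p : A) {q q' : A}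
    (hq : l • q = l • q') : Def X l (tor A l) p q = Def X l (tor A l) p q' := by
  unfold Def
  rw [hq]
  congr 1
  have hm : q - q' ∈ tor A l := by rw [mem_tor, smul_sub, hq, sub_self]
  rw [← s_shift (tor A l) (fun x => X p (q' + x)) hm]
  refine Finset.sum_congr rfl fun j _ => ?_
  congr 1; abel

lemma x_zero_right (h : Glob w m g e) (p : A) : xi m (tt w g) g p 0 = 0 := by
  unfold xi
  rw [tt_zero_right h.alt, map_zero, LinearMap.zero_apply]

lemma x_zero_left (h : Glob w m g e) (p : A) : xi m (tt w g) g 0 p = 0 := by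
  unfold xi
  rw [tt_zero_left h.alt, map_zero, LinearMap.zero_apply]

lemma Def_neg (h : Glob w m g e) (l : ℕ) [Fintype (tor A l)] (p q : A) :
    Def (xi m (tt w g) g) l (tor A l) p (-q) = - Def (xi m (tt w g) g) l (tor A l) p q := by
  unfold Def
  rw [← s_neg (tor A l) (fun x => xi m (tt w g) g p (-q + x)), smul_neg, h.par, smul_neg,
    neg_sub, sub_neg_eq_add]
  have : ∑ i : tor A l, xi m (tt w g) g p (-q + -i) =
      - ∑ i : tor A l, xi m (tt w g) g p (q + i) := by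
    rw [← Finset.sum_neg_distrib]
    refine Finset.sum_congr rfl fun i _ => ?_
    rw [← h.par]; congr 1; abel
  rw [this]; abel

lemma Def_zero_right (h : Glob w m g e) (l : ℕ) [Fintype (tor A l)] (p : A) :
    Def (xi m (tt w g) g) l (tor A l) p 0 = 0 := by
  have := Def_neg h l p 0
  rw [neg_zero] at this
  exact eq_zero_of_neg this

lemma Def_zero_left (h : Glob w m g e) (l : ℕ) [Fintype (tor A l)] (q : A) :
    Def (xi m (tt w g) g) l (tor A l) 0 q = 0 := by
  unfold Def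
  simp [x_zero_left h]

/-- `D2(1)` -/
lemma D2_one : D2P (xi m (tt w g) g) (0 + 1) (tor A (0 + 1)) := by
  intro p q
  rw [Fintype.sum_eq_single (0 : tor A (0 + 1))]
  · simp
  · intro i hi
    exfalso
    apply hi
    have h1 : (0 + 1) • (i : A) = 0 := mem_tor.mp i.2
    have h2 : (i : A) = 0 := (one_nsmul (i : A)).symm.trans h1
    exact Subtype.ext h2

/-- the induction step -/
lemma D2_step (hT : TD A) (h : Glob w m g e) (n : ℕ)
    (d2 : D2P (xi m (tt w g) g) (n + 1) (tor A (n + 1))) :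
    D2P (xi m (tt w g) g) (n + 1 + 1) (tor A (n + 1 + 1)) := by
  have loc := h.loc hT n
  set X : A → A → H := xi m (tt w g) g with hX
  set D : A → A → H := Def X (n + 1 + 1) (tor A (n + 1 + 1)) with hD
  -- a section of multiplication by `l`
  choose sec hsec using hT.div (n + 1)
  choose sek hsek using hT.div n
  set E : A → A → H := fun p r => D p (sec r) with hE
  have EeqD : ∀ p q, E p ((n + 1 + 1) • q) = D p q := by
    intro p q
    exact Def_congr X (n + 1 + 1) p (by rw [hsec])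
  have E0r : ∀ p, E p 0 = 0 := by
    intro p
    have := EeqD p 0
    rw [smul_zero] at this
    rw [this]; exact Def_zero_right h _ p
  have E0l : ∀ r, E 0 r = 0 := fun r => Def_zero_left h _ _
  have Eneg : ∀ p r, E p (-r) = - E p r := by
    intro p r
    have e1 := EeqD p (-(sec r))
    rw [smul_neg, hsec] at e1
    rw [e1]; exact Def_neg h _ p _
  set c1 : ℚ := 2 * ((n + 1 : ℕ) : ℚ) ^ 3 + 6 * ((n + 1 : ℕ) : ℚ) ^ 2 -
    ((n + 2 : ℕ) : ℚ) ^ 2 - 1 with hc1
  set c2 : ℚ := 2 * ((n + 2 : ℕ) : ℚ) ^ 2 with hc2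
  set c3 : ℚ := 2 - ((n + 1 : ℕ) : ℚ) ^ 3 with hc3
  -- the recursion off two lines
  have rec0 : ∀ p r : A, p ≠ 0 → p + r ≠ 0 → c1 • E p r =
      c2 • E p (p + r) + c3 • E (p + r) r -
        (((n + 2 : ℕ) : ℚ) ^ 2 * ((n + 1 : ℕ) : ℚ) ^ 3) • E p p := by
    intro p r hp hpr
    set a := sek (sec p) with ha
    set b := sek (sec r) with hb
    have e1 : (n + 1 + 1) • (n + 1) • a = p := by rw [ha, hsek, hsec]
    have e2 : (n + 1 + 1) • (n + 1) • b = r := by rw [hb, hsek, hsec]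
    have e3 : (n + 1 + 1) • (n + 1) • (a + b) = p + r := by
      rw [smul_add, smul_add, e1, e2]
    have st := star loc d2 a b (by rw [e1]; exact hp) (by rw [e3]; exact hpr)
    rw [e1, e3] at st
    have f1 : Def X (n + 1 + 1) (tor A (n + 1 + 1)) p ((n + 1) • b) = E p r := by
      rw [← e2, EeqD]
    have f2 : Def X (n + 1 + 1) (tor A (n + 1 + 1)) p ((n + 1) • (a + b)) = E p (p + r) := by
      rw [← e3, EeqD]
    have f3 : Def X (n + 1 + 1) (tor A (n + 1 + 1)) (p + r) ((n + 1) • b) = E (p + r) r := by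
      have := EeqD (p + r) ((n + 1) • b)
      rw [e2] at this
      exact this.symm
    have f4 : Def X (n + 1 + 1) (tor A (n + 1 + 1)) p ((n + 1) • a) = E p p := by
      have := EeqD p ((n + 1) • a)
      rw [e1] at this
      exact this.symm
    rw [← hX, f1, f2, f3, f4] at st
    exact st
  have hc3' : c3 ≠ 0 := by
    rw [hc3]
    intro h0
    have h1 : ((n + 1) ^ 3 : ℕ) = 2 := by
      have : (((n + 1) ^ 3 : ℕ) : ℚ) = 2 := by push_cast; push_cast at h0; linarith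
      exact_mod_cast this
    rcases Nat.eq_zero_or_pos n with rfl | hn
    · norm_num at h1
    · have : 2 ^ 3 ≤ (n + 1) ^ 3 := Nat.pow_le_pow_left (by omega) 3
      omega
  have Ediag : ∀ p, E p p = 0 := by
    intro p
    rcases eq_or_ne p 0 with rfl | hp
    · exact E0l 0
    have := rec0 p 0 hp (by rw [add_zero]; exact hp)
    rw [E0r, add_zero, E0r, smul_zero, smul_zero, add_zero, ← sub_smul] at this
    have hne : c2 - ((n + 2 : ℕ) : ℚ) ^ 2 * ((n + 1 : ℕ) : ℚ) ^ 3 ≠ 0 := by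
      have : c2 - ((n + 2 : ℕ) : ℚ) ^ 2 * ((n + 1 : ℕ) : ℚ) ^ 3 =
          ((n + 2 : ℕ) : ℚ) ^ 2 * c3 := by rw [hc2, hc3]; ring
      rw [this]
      exact mul_ne_zero (pow_ne_zero _ (Nat.cast_ne_zero.mpr (by omega))) hc3'
    exact (smul_eq_zero.mp this.symm).resolve_left hne
  have rec1 : ∀ p r : A, c1 • E p r = c2 • E p (p + r) + c3 • E (p + r) r := by
    intro p r
    rcases eq_or_ne p 0 with rfl | hp
    · rw [E0l, E0l, zero_add, Ediag]; simp
    rcases eq_or_ne (p + r) 0 with hpr | hpr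
    · rw [hpr, E0r, E0l, eq_neg_of_add_eq_zero_right hpr, Eneg, Ediag]; simp
    · rw [rec0 p r hp hpr, Ediag]; simp
  -- the sup norm
  have Ezero : ∀ p r, E p r = 0 := by
    intro p r
    rw [← Module.forall_dual_apply_eq_zero_iff ℚ]
    intro φ
    obtain ⟨N1, h1⟩ := hT.tors p
    obtain ⟨N2, h2⟩ := hT.tors r
    set N : ℕ := (N1 + 1) * (N2 + 1) - 1 with hN
    have hN1 : N + 1 = (N1 + 1) * (N2 + 1) := by
      rw [hN]; exact Nat.sub_add_cancel (Nat.mul_pos (Nat.succ_pos _) (Nat.succ_pos _))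
    have hp : p ∈ tor A (N + 1) := by
      rw [mem_tor, hN1, mul_comm, mul_smul, h1, smul_zero]
    have hr : r ∈ tor A (N + 1) := by
      rw [mem_tor, hN1, mul_smul, h2, smul_zero]
    have := sup_zero (T := tor A (N + 1)) (fun x y => φ (E x y)) c1 c2 c3
      (fun x y => by
        have := congrArg φ (rec1 x y)
        simp only [map_add, map_smul, smul_eq_mul] at this
        exact this) (coef n) ⟨p, hp⟩ ⟨r, hr⟩
    exact this
  intro p q
  have := Ezero p ((n + 1 + 1) • q)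
  rw [EeqD] at this
  exact sub_eq_zero.mp this

/-- `D2(l)` for all `l ≥ 1` and all pairs. -/
theorem D2_all (hT : TD A) (h : Glob w m g e) :
    ∀ n, D2P (xi m (tt w g) g) (n + 1) (tor A (n + 1))
  | 0 => D2_one
  | (n + 1) => D2_step hT h n (D2_all hT h n)

end ind

end Pool.Agent.K4D2
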