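import Pool.Agent.Lib_helper60.K4M.Delta

/-!
The target group of the Hecke relations: `H(F)` modulo the products with `ker δ`.

`Dec F ⊆ H(F)` is spanned by the `x ⊗ u` with `δ x = 0`.  The quotient embeds in
`(Λ² F^* ⊗ F^*) / ⟨(1-f) ∧ f ⊗ f⟩`.
-/

open scoped TensorProduct

namespace K4M

section Target

variable (F : Type*) [Field F]

/-- the relations `(1-f) ∧ f ⊗ f` -/
def h2Rel : Set (EA F ⊗[ℚ] FT F) :=
  {z | ∃ f : F, f ≠ 0 ∧ f ≠ 1 ∧ z = wg F (lg (1 - f)) (lg f) ⊗ₜ[ℚ] lg f}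

/-- `(Λ F^* ⊗ F^*) / ⟨(1-f) ∧ f ⊗ f⟩` -/
abbrev H2 : Type _ := (EA F ⊗[ℚ] FT F) ⧸ Submodule.span ℚ (h2Rel F)

/-- the class of `z ⊗ u` -/
noncomputable def mm : EA F →ₗ[ℚ] FT F →ₗ[ℚ] H2 F :=
  LinearMap.compr₂ (TensorProduct.mk ℚ (EA F) (FT F)) (Submodule.mkQ _)

variable {F}

lemma mm_apply (z : EA F) (u : FT F) : mm F z u = Submodule.Quotient.mk (z ⊗ₜ[ℚ] u) := rfl

lemma mm_rel (f : F) (h0 : f ≠ 0) (h1 : f ≠ 1) : mm F (wg F (lg (1 - f)) (lg f)) (lg f) = 0 := by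
  rw [mm_apply, Submodule.Quotient.mk_eq_zero]
  exact Submodule.subset_span ⟨f, h0, h1, rfl⟩

/-- `x ⊗ u ↦ δ x ⊗ u` -/
noncomputable def hd (F : Type*) [Field F] : HK F →ₗ[ℚ] H2 F :=
  Submodule.liftQ _ (TensorProduct.lift ((mm F).comp (de F))) (by
    rw [Submodule.span_le]
    rintro z ⟨f, h0, h1, rfl⟩
    show TensorProduct.lift ((mm F).comp (de F)) (sy f ⊗ₜ[ℚ] lg f) = 0
    rw [TensorProduct.lift.tmul, LinearMap.comp_apply, de_sy, mm_rel f h0 h1])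

lemma hd_hk (x : B2 F) (u : FT F) : hd F (hk x u) = mm F (de F x) u := by
  unfold hd hk
  rw [Submodule.liftQ_apply, TensorProduct.lift.tmul, LinearMap.comp_apply]

/-- the decomposable part: `x ⊗ u` with `δ x = 0` -/
noncomputable def Dec (F : Type*) [Field F] : Submodule ℚ (HK F) :=
  Submodule.span ℚ {z | ∃ (x : B2 F) (u : FT F), de F x = 0 ∧ z = hk x u}

lemma Dec_le : Dec F ≤ LinearMap.ker (hd F) := by
  unfold Dec
  rw [Submodule.span_le]
  rintro z ⟨x, u, hx, rfl⟩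
  show hd F (hk x u) = 0
  rw [hd_hk, hx, map_zero, LinearMap.zero_apply]

/-- the quotient map `B₂ ⊗ F^* → H(F)` -/
noncomputable def qH (F : Type*) [Field F] : B2 F ⊗[ℚ] FT F →ₗ[ℚ] HK F := Submodule.mkQ _

lemma qH_tmul (x : B2 F) (u : FT F) : qH F (x ⊗ₜ[ℚ] u) = hk x u := rfl

lemma qH_surj : Function.Surjective (qH F) := Submodule.mkQ_surjective _

lemma qH_rel (f : F) (h0 : f ≠ 0) (h1 : f ≠ 1) : qH F (sy f ⊗ₜ[ℚ] lg f) = 0 := by
  unfold qH
  rw [Submodule.mkQ_apply, Submodule.Quotient.mk_eq_zero]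
  exact Submodule.subset_span ⟨f, h0, h1, rfl⟩

lemma ker_de_rTensor (z : B2 F ⊗[ℚ] FT F) (hz : (de F).rTensor (FT F) z = 0) :
    qH F z ∈ Dec F := by
  have hex : Function.Exact ((LinearMap.ker (de F)).subtype.rTensor (FT F))
      ((de F).rTensor (FT F)) :=
    Module.Flat.rTensor_exact (FT F) (LinearMap.exact_subtype_ker_map (de F))
  obtain ⟨y, rfl⟩ := (hex z).mp hz
  clear hz hex
  induction y with
  | zero => rw [map_zero, map_zero]; exact Submodule.zero_mem _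
  | tmul x u =>
    rw [LinearMap.rTensor_tmul, qH_tmul]
    exact Submodule.subset_span ⟨x, u, x.2, rfl⟩
  | add x y hx hy => rw [map_add, map_add]; exact Submodule.add_mem _ hx hy

lemma hd_qH (z : B2 F ⊗[ℚ] FT F) :
    hd F (qH F z) = Submodule.Quotient.mk ((de F).rTensor (FT F) z) := by
  induction z with
  | zero => rw [map_zero, map_zero, map_zero]; rfl
  | tmul x u => rw [qH_tmul, hd_hk, LinearMap.rTensor_tmul, mm_apply]
  | add x y hx hy => rw [map_add, map_add, map_add, hx, hy]; rfl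

/-- **the kernel of `H(F) → (Λ² ⊗ F^*)/⟨(1-f) ∧ f ⊗ f⟩` is `Dec F`** -/
theorem ker_hd : LinearMap.ker (hd F) = Dec F := by
  refine le_antisymm ?_ Dec_le
  intro w hw
  obtain ⟨z, rfl⟩ := qH_surj w
  rw [LinearMap.mem_ker, hd_qH, Submodule.Quotient.mk_eq_zero] at hw
  have hsub : Submodule.span ℚ (h2Rel F) ≤
      (LinearMap.ker (qH F)).map ((de F).rTensor (FT F)) := by
    rw [Submodule.span_le]
    rintro y ⟨f, h0, h1, rfl⟩
    refine ⟨sy f ⊗ₜ[ℚ] lg f, qH_rel f h0 h1, ?_⟩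
    rw [LinearMap.rTensor_tmul, de_sy]
  obtain ⟨y, hy, hyz⟩ := hsub hw
  have h0 : (de F).rTensor (FT F) (z - y) = 0 := by rw [map_sub, hyz, sub_self]
  have h1 := ker_de_rTensor (z - y) h0
  have h2 : qH F y = 0 := hy
  rw [map_sub, h2, sub_zero] at h1
  exact h1

lemma mem_Dec_iff (w : HK F) : w ∈ Dec F ↔ hd F w = 0 := by
  rw [← ker_hd, LinearMap.mem_ker]

lemma sub_mem_Dec_iff (w w' : HK F) : w - w' ∈ Dec F ↔ hd F w = hd F w' := by
  rw [mem_Dec_iff, map_sub, sub_eq_zero]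

end Target

end K4M
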