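import Pool.Agent.Lib_helper24.K4D2.Induct
import Pool.Agent.Lib_helper24.K4D2.Target
import Pool.Agent.Lib_helper7.K4.TL

/-!
Project K4M, target 2: the distribution relation `D2` and the Hecke relation for the classes
`ξ(a,b) ∈ H(F)` modulo the decomposable part `Dec F`, from the structure `Glob` in `H2 F`.
-/

set_option autoImplicit false
set_option linter.unusedSectionVars false

open scoped TensorProduct

namespace Pool.Agent.K4D2

open Finset Pool.Agent.K4ParP

section shift

variable {A B G H : Type*} [AddCommGroup A] [AddCommGroup B] [Module ℚ B]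
  [AddCommGroup G] [Module ℚ G] [AddCommGroup H] [Module ℚ H]

lemma tt_shift {w : G →ₗ[ℚ] G →ₗ[ℚ] B} (hw : ∀ x, w x x = 0) (g : A → G) (s : G) :
    tt w (fun a => g a - s) = tt w g := by
  funext a b
  unfold tt
  simp only [map_sub, LinearMap.sub_apply, hw]
  rw [w_swap hw s (g b), w_swap hw s (g (a + b)), w_swap hw s (g a)]
  abel

lemma xi_shift (m : B →ₗ[ℚ] G →ₗ[ℚ] H) (t : A → A → B) (g : A → G) (s : G) :
    xi m t (fun a => g a - s) = xi m t g := by
  funext a b
  unfold xi
  simp only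
  congr 1
  abel

end shift

section mod

open K4M

variable {F : Type*} [Field F] {T : Type*} [AddCommGroup T]

/-- the class of `ξ(a,b)` in `H(F)/Dec F` -/
noncomputable def xq (t : T → T → B2 F) (g : T → FT F) (a b : T) : HK F ⧸ Dec F :=
  (Dec F).mkQ (xi (hkL F) t g a b)

/-- the injection `H(F)/Dec F → H2 F` -/
noncomputable def hq (F : Type*) [Field F] : (HK F ⧸ Dec F) →ₗ[ℚ] H2 F :=
  (Dec F).liftQ (hd F) Dec_le

lemma hq_inj : Function.Injective (hq F) := by
  rw [← LinearMap.ker_eq_bot, hq, Submodule.ker_liftQ, ker_hd, Submodule.mkQ_map_self]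

lemma hq_xq {t : T → T → B2 F} {g : T → FT F} (ht : ∀ a b, de F (t a b) = tt (wg F) g a b)
    (a b : T) : hq F (xq t g a b) = xi (mm F) (tt (wg F) g) g a b := by
  unfold xq hq
  rw [Submodule.mkQ_apply, Submodule.liftQ_apply]
  show hd F (hk (t a b) (g b - g a)) = _
  rw [hd_hk, ht]
  rfl

variable [∀ n : ℕ, Fintype (tor T (n + 1))] {t : T → T → B2 F} {g : T → FT F} {s : FT F}
  {e : ℕ → FT F}

lemma hq_xq' (ht : ∀ a b, de F (t a b) = tt (wg F) g a b) (s : FT F) (a b : T) :
    hq F (xq t g a b) = xi (mm F) (tt (wg F) fun a => g a - s) (fun a => g a - s) a b := by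
  rw [hq_xq ht, tt_shift wg_self, xi_shift]

/-- `D2` modulo `Dec F` -/
theorem d2_mod (hT : TD T) (ht : ∀ a b, de F (t a b) = tt (wg F) g a b)
    (hG : Glob (wg F) (mm F) (fun a => g a - s) e) (n : ℕ) (a b : T) :
    ((n + 1 : ℕ) : ℚ) • ∑ i : tor T (n + 1), xq t g a (b + i) = xq t g a ((n + 1) • b) := by
  apply hq_inj
  rw [map_smul, map_sum]
  simp only [hq_xq' ht s]
  rw [D2_all hT hG n a b, smul_smul, mul_inv_cancel₀ (Nat.cast_ne_zero.mpr (Nat.succ_ne_zero n)),
    one_smul]

/-- the Manin relations modulo `Dec F` -/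
theorem manin_mod (ht : ∀ a b, de F (t a b) = tt (wg F) g a b)
    (hG : Glob (wg F) (mm F) (fun a => g a - s) e) : Pool.Agent.K4Fin.ManinSym (xq t g) where
  sym a b := by
    apply hq_inj
    rw [hq_xq' ht s, hq_xq' ht s]
    unfold xi
    rw [(tt_isT hG.alt hG.even).swap a b, map_neg, LinearMap.neg_apply, ← map_neg, neg_sub]
  par a b := by
    apply hq_inj
    rw [map_neg, hq_xq' ht s, hq_xq' ht s]
    exact hG.par a b
  tri a b := by
    apply hq_inj
    rw [map_add, map_add, map_zero, hq_xq' ht s, hq_xq' ht s, hq_xq' ht s]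
    have hT' := tt_isT hG.alt hG.even
    unfold xi
    have e1 := hT'.rot a b
    have e2 : tt (wg F) (fun a => g a - s) (-a - b) a = tt (wg F) (fun a => g a - s) a b := by
      have := hT'.rot b (-a - b)
      rw [show -b - (-a - b) = a by abel, e1] at this
      exact this
    rw [e1, e2, ← map_add, ← map_add,
      show (g b - s - (g a - s) + (g (-a - b) - s - (g b - s)) + (g a - s - (g (-a - b) - s))) = 0
        by abel, map_zero]

/-- the finite sets of `n`-torsion elements -/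
noncomputable def TF (T : Type*) [AddCommGroup T] [∀ n : ℕ, Fintype (tor T (n + 1))] :
    ℕ → Finset T
  | 0 => ∅
  | (n + 1) => (univ : Finset (tor T (n + 1))).map (Function.Embedding.subtype _)

lemma mem_TF {n : ℕ} (hn : 0 < n) (i : T) : i ∈ TF T n ↔ n • i = 0 := by
  obtain ⟨n, rfl⟩ := Nat.exists_eq_succ_of_ne_zero hn.ne'
  show i ∈ (univ : Finset (tor T (n + 1))).map (Function.Embedding.subtype _) ↔ _
  rw [mem_map]
  constructor
  · rintro ⟨⟨x, hx⟩, -, rfl⟩
    exact mem_tor.mp hx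
  · intro h
    exact ⟨⟨i, mem_tor.mpr h⟩, mem_univ _, rfl⟩

lemma sum_TF {V : Type*} [AddCommMonoid V] (n : ℕ) (f : T → V) :
    ∑ i ∈ TF T (n + 1), f i = ∑ i : tor T (n + 1), f i := by
  show ∑ i ∈ (univ : Finset (tor T (n + 1))).map (Function.Embedding.subtype _), f i = _
  rw [sum_map]
  rfl

lemma isTors_TF (hT : TD T) : Pool.Agent.K4TL.IsTors (TF T) where
  mem k hk i := mem_TF hk i
  div k hk a := by
    obtain ⟨n, rfl⟩ := Nat.exists_eq_succ_of_ne_zero hk.ne'
    exact hT.div n a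

lemma card_TF (hT : TD T) (n : ℕ) : (TF T (n + 1)).card = (n + 1) ^ 2 := by
  show ((univ : Finset (tor T (n + 1))).map (Function.Embedding.subtype _)).card = _
  rw [card_map, card_univ]
  exact hT.card n

/-- all relations -/
theorem dist_mod (hT : TD T) (ht : ∀ a b, de F (t a b) = tt (wg F) g a b)
    (hG : Glob (wg F) (mm F) (fun a => g a - s) e) :
    Pool.Agent.K4TL.Dist (TF T) (xq t g) where
  toManinSym := manin_mod ht hG
  d2 k hk a b := by
    obtain ⟨n, rfl⟩ := Nat.exists_eq_succ_of_ne_zero hk.ne'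
    rw [Nat.succ_eq_add_one, sum_TF n (fun i => xq t g a (b + i))]
    exact d2_mod hT ht hG n a b

/-- **Hecke relation modulo `Dec F`** -/
theorem hecke_mod (hT : TD T) (ht : ∀ a b, de F (t a b) = tt (wg F) g a b)
    (hG : Glob (wg F) (mm F) (fun a => g a - s) e) {l : ℕ} (hl : l.Prime) (x y : T) :
    (l : ℚ) • ∑ C ∈ Pool.Agent.K4TL.subs (TF T) l, ∑ c ∈ Pool.Agent.K4TL.el (TF T) l C,
      ∑ c' ∈ Pool.Agent.K4TL.el (TF T) l C, xq t g (x + c) (y + c') =
      ∑ M ∈ Pool.Agent.K4TL.XX l, xq t g (M.1 • x + M.2.1 • y) (M.2.2.1 • x + M.2.2.2 • y) := by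
  haveI : Fact l.Prime := ⟨hl⟩
  obtain ⟨n, rfl⟩ := Nat.exists_eq_succ_of_ne_zero hl.ne_zero
  exact Pool.Agent.K4TL.hecke (isTors_TF hT) (card_TF hT n) (dist_mod hT ht hG) x y

end mod

end Pool.Agent.K4D2
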