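import Pool.Agent.Lib_helper24.K4D2.Base

/-!
Project K4M, target 2: evaluation of the terms of the two summed four term relations.
-/

set_option autoImplicit false
set_option linter.unusedSectionVars false

namespace Pool.Agent.K4D2

open Finset Pool.Agent.K4ParP

variable {A B G H : Type*} [AddCommGroup A] [AddCommGroup B] [Module ℚ B]
  [AddCommGroup G] [Module ℚ G] [AddCommGroup H] [Module ℚ H]

/-- The local set-up for `D2(l)`, `l = κ + 1`: `L` is the `l`-torsion, `K` the `κ`-torsion. -/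
structure Loc (w : G →ₗ[ℚ] G →ₗ[ℚ] B) (m : B →ₗ[ℚ] G →ₗ[ℚ] H) (g : A → G) (l κ : ℕ)
    (L K : AddSubgroup A) [Fintype L] [Fintype K] (eL eK : G) : Prop where
  alt : ∀ x, w x x = 0
  even : IsG g
  par : ∀ a b, xi m (tt w g) g a (-b) = - xi m (tt w g) g a b
  r4 : ∀ e q s, R4v m (tt w g) g e q s = 0
  hl : l = κ + 1
  hκ : 0 < κ
  tL : ∀ i ∈ L, l • i = 0
  tK : ∀ h ∈ K, κ • h = 0
  cL : Fintype.card L = l ^ 2
  cK : Fintype.card K = κ ^ 2
  dL : DG g l L eL
  dK : DG g κ K eK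
  d1L : ∀ a b, ∑ i : L, ∑ j : L, xi m (tt w g) g (a + i) (b + j) =
    ((l : ℚ) ^ 2)⁻¹ • xi m (tt w g) g (l • a) (l • b)
  d1K : ∀ a b, ∑ h : K, ∑ k : K, xi m (tt w g) g (a + h) (b + k) =
    ((κ : ℚ) ^ 2)⁻¹ • xi m (tt w g) g (κ • a) (κ • b)

section terms

variable {w : G →ₗ[ℚ] G →ₗ[ℚ] B} {m : B →ₗ[ℚ] G →ₗ[ℚ] H} {g : A → G} {l κ : ℕ}
  {L K : AddSubgroup A} [Fintype L] [Fintype K] {eL eK : G}

lemma Loc.kL (h : Loc w m g l κ L K eL eK) (i : L) : κ • (i : A) = -i := by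
  have := h.tL i i.2
  rw [h.hl, add_smul, one_smul] at this
  exact eq_neg_of_add_eq_zero_left this

lemma Loc.lK (h : Loc w m g l κ L K eL eK) (k : K) : l • (k : A) = k := by
  rw [h.hl, add_smul, one_smul, h.tK k k.2, zero_add]

lemma Loc.la (h : Loc w m g l κ L K eL eK) (a : A) : l • a = κ • a + a := by
  rw [h.hl, add_smul, one_smul]

lemma Loc.lk (h : Loc w m g l κ L K eL eK) (a : A) : l • κ • a = κ • l • a := smul_comm _ _ _

/-- the term `T0(h+k) ⊗ (g(p+k) - g(q+h))` -/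
lemma dbl (T0 : A → B) (p q : A) :
    ∑ h : K, ∑ k : K, m (T0 (h + k)) (g (p + k) - g (q + h)) =
      m (∑ s : K, T0 s) (∑ k : K, g (p + k) - ∑ h : K, g (q + h)) := by
  simp only [map_sub, Finset.sum_sub_distrib]
  congr 1
  · rw [Finset.sum_comm, map_sum]
    refine Finset.sum_congr rfl fun k _ => ?_
    rw [← s_shift K T0 k.2, map_sum, LinearMap.sum_apply]
  · rw [map_sum]
    refine Finset.sum_congr rfl fun h _ => ?_
    rw [← s_shift K T0 h.2, map_sum, LinearMap.sum_apply]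
    refine Finset.sum_congr rfl fun k _ => ?_
    rw [add_comm (h : A)]

lemma sum_m_left (F : K → K → B) (x : G) :
    ∑ h : K, ∑ k : K, m (F h k) x = m (∑ h : K, ∑ k : K, F h k) x := by
  simp only [map_sum, LinearMap.sum_apply]

lemma dtK (h : Loc w m g l κ L K eL eK) (p q : A) :
    ∑ h : K, ∑ k : K, tt w g (p + h) (q + k) = tt w g (κ • p) (κ • q) :=
  dt h.alt h.even h.dK p q

lemma dtL (h : Loc w m g l κ L K eL eK) (p q : A) :
    ∑ i : L, ∑ j : L, tt w g (p + i) (q + j) = tt w g (l • p) (l • q) :=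
  dt h.alt h.even h.dL p q

lemma dtK' (h : Loc w m g l κ L K eL eK) (p q : A) :
    ∑ h : K, ∑ k : K, tt w g (q + k) (p + h) = tt w g (κ • q) (κ • p) := by
  rw [Finset.sum_comm]
  exact dtK h q p

/-- M1 -/
lemma termM1 (h : Loc w m g l κ L K eL eK) (p q r : A) :
    ∑ j : L, ∑ i : L, ∑ h : K, ∑ k : K, m (tt w g (p + h) (q + j + k)) (g (r - i)) =
      ∑ j : L, m (tt w g (κ • p) (κ • q + j)) (∑ i : L, g (r + i)) := by
  have e : ∀ j i : L, ∑ h : K, ∑ k : K, m (tt w g (p + h) (q + j + k)) (g (r - i)) =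
      m (tt w g (κ • p) (κ • q - j)) (g (r - i)) := by
    intro j i
    rw [sum_m_left, dtK h, smul_add, h.kL j, ← sub_eq_add_neg]
  simp only [e]
  simp only [← map_sum]
  rw [h.dL.sub, ← s_neg L (fun j => m (tt w g (κ • p) (κ • q + j)) (∑ i : L, g (r + i)))]
  simp only [sub_eq_add_neg]

/-- M2 -/
lemma termM2 (h : Loc w m g l κ L K eL eK) (p q c : A) (hc : κ • l • c ≠ 0) :
    ∑ j : L, ∑ i : L, ∑ h : K, ∑ k : K, m (tt w g (p + h) (q + j + k)) (g (c + i + j + h + k)) =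
      ∑ j : L, ∑ h : K, ∑ k : K, m (tt w g (p + h) (q + j + k)) (g (l • c + h + k)) := by
  refine Finset.sum_congr rfl fun j _ => ?_
  rw [Finset.sum_comm]
  refine Finset.sum_congr rfl fun h' _ => ?_
  rw [Finset.sum_comm]
  refine Finset.sum_congr rfl fun k _ => ?_
  rw [← map_sum]
  congr 1
  have e : l • (c + j + h' + k) = l • c + h' + k := by
    rw [smul_add, smul_add, smul_add, h.tL j j.2, h.lK h', h.lK k, add_zero]
  have e0 : l • (c + j + h' + k) ≠ 0 := by
    rw [e]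
    intro h0
    apply hc
    have := congrArg (fun z => κ • z) h0
    simp only [smul_add, smul_zero, h.tK h' h'.2, h.tK k k.2, add_zero] at this
    exact this
  rw [← e, ← h.dL.ne e0]
  refine Finset.sum_congr rfl fun i _ => ?_
  congr 1; abel

/-- Q1a -/
lemma termQ1a (h : Loc w m g l κ L K eL eK) (p q c : A) :
    ∑ j : L, ∑ _i : L, ∑ h : K, ∑ k : K, m (tt w g (q + j + k) (p + h)) (g (c + h + k)) =
      - ((l : ℚ) ^ 2 • ∑ j : L, ∑ h : K, ∑ k : K,
        m (tt w g (p + h) (q + j + k)) (g (c + h + k))) := by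
  have hT := tt_isT h.alt h.even
  simp only [Finset.sum_const, Finset.card_univ, h.cL]
  rw [← Finset.smul_sum, ← smul_neg, ← Nat.cast_smul_eq_nsmul ℚ, Nat.cast_pow]
  congr 1
  simp only [← Finset.sum_neg_distrib]
  refine Finset.sum_congr rfl fun j _ => Finset.sum_congr rfl fun h' _ =>
    Finset.sum_congr rfl fun k _ => ?_
  rw [hT.swap, map_neg, LinearMap.neg_apply]

/-- Q1b -/
lemma termQ1b (h : Loc w m g l κ L K eL eK) (p q : A) :
    ∑ j : L, ∑ _i : L, ∑ h : K, ∑ k : K, m (tt w g (q + j + k) (p + h)) (g (κ • q - j)) =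
      - ((l : ℚ) ^ 2 • ∑ j : L, m (tt w g (κ • p) (κ • q + j)) (g (κ • q + j))) := by
  have hT := tt_isT h.alt h.even
  simp only [Finset.sum_const, Finset.card_univ, h.cL]
  rw [← Finset.smul_sum, ← smul_neg, ← Nat.cast_smul_eq_nsmul ℚ, Nat.cast_pow]
  congr 1
  rw [← s_neg L (fun j => m (tt w g (κ • p) (κ • q + j)) (g (κ • q + j)))]
  simp only [← Finset.sum_neg_distrib]
  refine Finset.sum_congr rfl fun j _ => ?_
  rw [sum_m_left, dtK' h, smul_add, h.kL j, ← sub_eq_add_neg, hT.swap, map_neg,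
    LinearMap.neg_apply]

/-- M3 -/
lemma termM3 (c b u x : A) :
    ∑ j : L, ∑ i : L, ∑ h : K, ∑ k : K, m (tt w g (c + i + j + h + k) (x - i))
        (g (b + j + k) - g (u + h)) =
      ∑ j : L, m (∑ i : L, ∑ s : K, tt w g (c + i + j + s) (x - i))
        (∑ k : K, g (b + j + k) - ∑ h : K, g (u + h)) := by
  refine Finset.sum_congr rfl fun j _ => ?_
  rw [map_sum, LinearMap.sum_apply]
  refine Finset.sum_congr rfl fun i _ => ?_
  rw [← dbl (fun s => tt w g (c + i + j + s) (x - i)) (b + j) u]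
  simp only [add_assoc]

/-- Q2 -/
lemma termQ2 (h : Loc w m g l κ L K eL eK) (c b u y : A) :
    ∑ j : L, ∑ _i : L, ∑ h : K, ∑ k : K, m (tt w g (c + j + h + k) (y - j))
        (g (b + j + k) - g (u + h)) =
      (l : ℚ) ^ 2 • ∑ j : L, m (∑ s : K, tt w g (c + j + s) (y - j))
        (∑ k : K, g (b + j + k) - ∑ h : K, g (u + h)) := by
  simp only [Finset.sum_const, Finset.card_univ, h.cL]
  rw [← Finset.smul_sum, ← Nat.cast_smul_eq_nsmul ℚ, Nat.cast_pow]
  congr 1
  refine Finset.sum_congr rfl fun j _ => ?_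
  rw [← dbl (fun s => tt w g (c + j + s) (y - j)) (b + j) u]
  simp only [add_assoc]

/-- M4a -/
lemma termM4a (h : Loc w m g l κ L K eL eK) (a b u : A) :
    ∑ j : L, ∑ i : L, ∑ h : K, ∑ k : K, m (tt w g (a + i + h) (b + j + k)) (g (u + h)) =
      ∑ h : K, ∑ k : K, m (tt w g (l • a + h) (l • b + k)) (g (u + h)) := by
  have e1 : ∀ j : L, ∑ i : L, ∑ h : K, ∑ k : K, m (tt w g (a + i + h) (b + j + k)) (g (u + h)) =
      ∑ h : K, ∑ k : K, ∑ i : L, m (tt w g (a + i + h) (b + j + k)) (g (u + h)) := by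
    intro j
    rw [Finset.sum_comm]
    refine Finset.sum_congr rfl fun h' _ => ?_
    rw [Finset.sum_comm]
  simp only [e1]
  rw [Finset.sum_comm]
  refine Finset.sum_congr rfl fun h' _ => ?_
  rw [Finset.sum_comm]
  refine Finset.sum_congr rfl fun k _ => ?_
  have e2 : ∑ j : L, ∑ i : L, m (tt w g (a + i + h') (b + j + k)) (g (u + h')) =
      m (∑ i : L, ∑ j : L, tt w g (a + h' + i) (b + k + j)) (g (u + h')) := by
    rw [Finset.sum_comm]
    simp only [map_sum, LinearMap.sum_apply]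
    refine Finset.sum_congr rfl fun i _ => Finset.sum_congr rfl fun j _ => ?_
    congr 2
    congr 1 <;> abel
  rw [e2, dtL h, smul_add, smul_add, h.lK, h.lK]

/-- M4b -/
lemma termM4b (h : Loc w m g l κ L K eL eK) (a b : A) :
    ∑ j : L, ∑ i : L, ∑ h : K, ∑ k : K, m (tt w g (a + i + h) (b + j + k)) (g (κ • a - i)) =
      ∑ j : L, ∑ i : L, m (tt w g (κ • a + i) (κ • b + j)) (g (κ • a + i)) := by
  rw [← s_neg L (fun j => ∑ i : L, m (tt w g (κ • a + i) (κ • b + j)) (g (κ • a + i)))]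
  refine Finset.sum_congr rfl fun j _ => ?_
  rw [← s_neg L (fun i => m (tt w g (κ • a + i) (κ • b + -j)) (g (κ • a + i)))]
  refine Finset.sum_congr rfl fun i _ => ?_
  rw [sum_m_left, dtK h, smul_add, smul_add, h.kL j, h.kL i]
  simp only [sub_eq_add_neg]

end terms

end Pool.Agent.K4D2
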