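import Pool.Agent.Lib_helper24.K4D2.Terms

/-!
Project K4M, target 2: the remaining product terms, the rank one relation, the four cusp relation.
-/

set_option autoImplicit false
set_option linter.unusedSectionVars false

namespace Pool.Agent.K4D2

open Finset Pool.Agent.K4ParP

variable {A B G H : Type*} [AddCommGroup A] [AddCommGroup B] [Module ℚ B]
  [AddCommGroup G] [Module ℚ G] [AddCommGroup H] [Module ℚ H]

section terms

variable {w : G →ₗ[ℚ] G →ₗ[ℚ] B} {m : B →ₗ[ℚ] G →ₗ[ℚ] H} {g : A → G} {l κ : ℕ}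
  {L K : AddSubgroup A} [Fintype L] [Fintype K] {eL eK : G}

/-- Q3a -/
lemma termQ3a (h : Loc w m g l κ L K eL eK) (b u : A) :
    ∑ j : L, ∑ _i : L, ∑ h : K, ∑ k : K, m (tt w g (l • b + k) (u + h)) (g (b + j + k)) =
      (l : ℚ) ^ 2 • ∑ h : K, ∑ k : K, m (tt w g (l • b + k) (u + h)) (g (l • b + k)) := by
  rw [Finset.sum_comm]
  simp only [Finset.sum_const, Finset.card_univ, h.cL]
  rw [← Nat.cast_smul_eq_nsmul ℚ, Nat.cast_pow]
  congr 1
  rw [Finset.sum_comm]
  refine Finset.sum_congr rfl fun h' _ => ?_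
  rw [Finset.sum_comm]
  refine Finset.sum_congr rfl fun k _ => ?_
  rw [← map_sum]
  have e : l • (b + k) = l • b + k := by rw [smul_add, h.lK]
  have e1 : ∑ j : L, g (b + j + k) = ∑ j : L, g (b + k + j) := by
    refine Finset.sum_congr rfl fun j _ => ?_
    congr 1; abel
  rw [e1, h.dL, e]
  by_cases h0 : l • b + (k : A) = 0
  · rw [h0, tt_zero_left h.alt]; simp
  · rw [if_neg h0, add_zero]

/-- Q3b -/
lemma termQ3b (h : Loc w m g l κ L K eL eK) (p q y : A) (hy : l • y = κ • p) :
    ∑ j : L, ∑ _i : L, ∑ h : K, ∑ k : K, m (tt w g (p + k) (q + h)) (g (y - j)) =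
      (l : ℚ) ^ 2 • m (tt w g (κ • p) (κ • q)) (g (κ • p)) := by
  rw [Finset.sum_comm]
  simp only [Finset.sum_const, Finset.card_univ, h.cL]
  rw [← Nat.cast_smul_eq_nsmul ℚ, Nat.cast_pow]
  congr 1
  simp only [sum_m_left, dtK' h]
  rw [← map_sum, h.dL.sub, h.dL, hy]
  by_cases h0 : κ • p = 0
  · rw [h0, tt_zero_left h.alt]; simp
  · rw [if_neg h0, add_zero]

/-- rank one: `RO` -/
lemma rank_one (h : Loc w m g l κ L K eL eK) (a : A) (ha : l • κ • a ≠ 0) :
    ∑ i : L, ∑ s : K, tt w g (a + i + s) (κ • a - i) = 0 := by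
  have hx : ∀ i : L, κ • a - (i : A) ≠ 0 := by
    intro i h0
    apply ha
    rw [sub_eq_zero.mp h0, h.tL i i.2]
  have hla : κ • l • a ≠ 0 := by rw [← h.lk]; exact ha
  have hu : ∀ s : K, l • a + (s : A) ≠ 0 := by
    intro s h0
    apply hla
    have := congrArg (fun z => κ • z) h0
    simp only [smul_add, smul_zero, h.tK s s.2, add_zero] at this
    exact this
  have es : ∀ (i : L) (s : K), a + (i : A) + s + (κ • a - i) = l • a + s := by
    intro i s
    rw [h.la]; abel
  unfold tt
  simp only [es, Finset.sum_add_distrib]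
  have t1 : ∑ i : L, ∑ s : K, w (g (a + i + s)) (g (κ • a - i)) = 0 := by
    refine Finset.sum_eq_zero fun i _ => ?_
    have e1 : ∑ s : K, g (a + i + s) = g (κ • a - i) := by
      have e2 : κ • (a + (i : A)) = κ • a - i := by rw [smul_add, h.kL, sub_eq_add_neg]
      have e3 : κ • (a + (i : A)) ≠ 0 := by rw [e2]; exact hx i
      rw [h.dK.ne e3, e2]
    have e4 : ∑ s : K, w (g (a + i + s)) (g (κ • a - i)) =
        w (∑ s : K, g (a + i + s)) (g (κ • a - i)) := by
      simp only [map_sum, LinearMap.sum_apply]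
    rw [e4, e1, h.alt]
  have t2 : ∑ i : L, ∑ s : K, w (g (κ • a - i)) (g (l • a + s)) = 0 := by
    have e4 : ∑ i : L, ∑ s : K, w (g (κ • a - i)) (g (l • a + s)) =
        w (∑ i : L, g (κ • a - i)) (∑ s : K, g (l • a + s)) := by
      simp only [map_sum, LinearMap.sum_apply]
      exact Finset.sum_comm
    rw [e4, h.dL.sub, h.dL.ne ha, h.dK.ne hla, h.lk, h.alt]
  have t3 : ∑ i : L, ∑ s : K, w (g (l • a + s)) (g (a + i + s)) = 0 := by
    rw [Finset.sum_comm]
    refine Finset.sum_eq_zero fun s _ => ?_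
    rw [← map_sum]
    have e1 : ∑ i : L, g (a + i + s) = ∑ i : L, g (a + s + i) := by
      refine Finset.sum_congr rfl fun i _ => ?_
      congr 1; abel
    have e2 : l • (a + (s : A)) = l • a + s := by rw [smul_add, h.lK]
    have e3 : l • (a + (s : A)) ≠ 0 := by rw [e2]; exact hu s
    rw [e1, h.dL.ne e3, e2, h.alt]
  rw [t1, t2, t3]; simp

/-- M5 -/
lemma termM5 (h : Loc w m g l κ L K eL eK) (a b c : A) (ha : l • κ • a ≠ 0) :
    ∑ j : L, ∑ i : L, ∑ h : K, ∑ k : K, m (tt w g (a + i + h) (κ • a - i))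
        (g (c + i + j + h + k) - g (b + j + k)) = 0 := by
  set Γ : A → G := fun c => ∑ j : L, ∑ k : K, g (c + j + k) with hΓ
  have sh : ∀ (c : A) (i : L) (h' : K), ∑ j : L, ∑ k : K, g (c + i + j + h' + k) = Γ c := by
    intro c i h'
    rw [hΓ]
    simp only
    rw [← s_shift L (fun j => ∑ k : K, g (c + j + k)) i.2]
    refine Finset.sum_congr rfl fun j _ => ?_
    rw [← s_shift K (fun k => g (c + (j + i) + k)) h'.2]
    refine Finset.sum_congr rfl fun k _ => ?_
    congr 1; abel
  have e1 : ∑ j : L, ∑ i : L, ∑ h : K, ∑ k : K, m (tt w g (a + i + h) (κ • a - i))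
        (g (c + i + j + h + k) - g (b + j + k)) =
      ∑ i : L, ∑ h : K, m (tt w g (a + i + h) (κ • a - i)) (Γ c - Γ b) := by
    rw [Finset.sum_comm]
    refine Finset.sum_congr rfl fun i _ => ?_
    rw [Finset.sum_comm]
    refine Finset.sum_congr rfl fun h' _ => ?_
    rw [← sh c i h', hΓ]
    simp only [map_sub, map_sum, Finset.sum_sub_distrib]
  rw [e1]
  have e2 : ∑ i : L, ∑ h : K, m (tt w g (a + i + h) (κ • a - i)) (Γ c - Γ b) =
      m (∑ i : L, ∑ h : K, tt w g (a + i + h) (κ • a - i)) (Γ c - Γ b) := by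
    simp only [map_sum, LinearMap.sum_apply]
  rw [e2, rank_one h a ha, map_zero, LinearMap.zero_apply]

/-- Q4 -/
lemma termQ4 (h : Loc w m g l κ L K eL eK) (b s u : A)
    (hsu : l • κ • b = 0 → κ • s = κ • u) (hs : κ • s ≠ 0) (hu : κ • u ≠ 0) :
    ∑ j : L, ∑ _i : L, ∑ h : K, ∑ k : K, m (tt w g (b + j + k) (κ • b - j))
        (g (s + h + k) - g (u + h)) = 0 := by
  have e0 : ∀ k : K, ∑ h : K, (g (s + h + k) - g (u + h)) = g (κ • s) - g (κ • u) := by
    intro k
    rw [Finset.sum_sub_distrib, h.dK.ne hu]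
    congr 1
    rw [← h.dK.ne hs, ← s_shift K (fun h' => g (s + h')) k.2]
    refine Finset.sum_congr rfl fun h' _ => ?_
    congr 1; abel
  have e1 : ∑ j : L, ∑ _i : L, ∑ h : K, ∑ k : K, m (tt w g (b + j + k) (κ • b - j))
        (g (s + h + k) - g (u + h)) =
      ((l ^ 2 : ℕ) : ℚ) • m (∑ j : L, ∑ k : K, tt w g (b + j + k) (κ • b - j))
        (g (κ • s) - g (κ • u)) := by
    simp only [Finset.sum_const, Finset.card_univ, h.cL]
    rw [← Finset.smul_sum, ← Nat.cast_smul_eq_nsmul ℚ]
    congr 1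
    simp only [map_sum, LinearMap.sum_apply]
    refine Finset.sum_congr rfl fun j _ => ?_
    rw [Finset.sum_comm]
    refine Finset.sum_congr rfl fun k _ => ?_
    rw [← map_sum, e0 k]
  rw [e1]
  by_cases hb : l • κ • b = 0
  · rw [hsu hb, sub_self, map_zero, smul_zero]
  · rw [rank_one h b hb, map_zero, LinearMap.zero_apply, smul_zero]

/-- the four cusp relation -/
lemma zrel (h : Loc w m g l κ L K eL eK) (a b : A) (hA : l • κ • a ≠ 0)
    (hC : l • κ • (a + b) ≠ 0) :
    ∑ i : L, ∑ s : K, tt w g (a + b + i + s) (κ • a - i) +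
      ∑ s : K, tt w g (l • a + b + s) (κ • b) + tt w g (l • κ • a) (κ • b) -
      ∑ i : L, tt w g (κ • a + i) (κ • b) = 0 := by
  have hla : κ • l • a ≠ 0 := by rw [← h.lk]; exact hA
  have hlc : κ • l • (a + b) ≠ 0 := by rw [← h.lk]; exact hC
  -- the sums of `g`
  have gx : ∑ i : L, g (κ • a - i) = g (l • κ • a) := by rw [h.dL.sub, h.dL.ne hA]
  have gx' : ∑ i : L, g (κ • a + i) = g (l • κ • a) := h.dL.ne hA
  have gub : ∑ s : K, g (l • a + b + s) = g (l • κ • a + κ • b) +
      open Classical in (if l • κ • a + κ • b = 0 then eK else 0) := by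
    have e : κ • (l • a + b) = l • κ • a + κ • b := by rw [smul_add, ← h.lk]
    rw [h.dK, e]
  have guv : ∑ s : K, g (l • a + l • b + s) = g (l • κ • (a + b)) := by
    have e : κ • (l • a + l • b) = l • κ • (a + b) := by rw [← smul_add, ← h.lk]
    have e' : κ • (l • a + l • b) ≠ 0 := by rw [e]; exact hC
    rw [h.dK.ne e', e]
  have gxy : ∑ i : L, g (κ • a + κ • b + i) = g (l • κ • (a + b)) := by
    have e : l • (κ • a + κ • b) = l • κ • (a + b) := by rw [← smul_add]
    have e' : l • (κ • a + κ • b) ≠ 0 := by rw [e]; exact hC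
    rw [h.dL.ne e', e]
  have p1 : ∀ i : L, ∑ s : K, g (a + b + i + s) = g (κ • a + κ • b - i) := by
    intro i
    have e : κ • (a + b + (i : A)) = κ • a + κ • b - i := by
      rw [smul_add, smul_add, h.kL, sub_eq_add_neg]
    have e' : κ • (a + b + (i : A)) ≠ 0 := by
      rw [e]; intro h0
      apply hC
      rw [smul_add κ, sub_eq_zero.mp h0, h.tL i i.2]
    rw [h.dK.ne e', e]
  have p2 : ∀ s : K, ∑ i : L, g (a + b + i + s) = g (l • a + l • b + s) := by
    intro s
    have e : l • (a + b + (s : A)) = l • a + l • b + s := by rw [smul_add, smul_add, h.lK]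
    have e' : l • (a + b + (s : A)) ≠ 0 := by
      rw [e]; intro h0
      apply hlc
      have := congrArg (fun z => κ • z) h0
      simp only [smul_add, smul_zero, h.tK s s.2, add_zero] at this
      rw [smul_add, smul_add]; exact this
    rw [← e, ← h.dL.ne e']
    refine Finset.sum_congr rfl fun i _ => ?_
    congr 1; abel
  -- expansions
  have s1 : ∑ i : L, ∑ s : K, tt w g (a + b + i + s) (κ • a - i) =
      ∑ i : L, w (g (κ • a + κ • b + i)) (g (κ • a + i)) +
      w (g (l • κ • a)) (∑ s : K, g (l • a + b + s)) +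
      ∑ s : K, w (g (l • a + b + s)) (g (l • a + l • b + s)) := by
    have es : ∀ (i : L) (s : K), a + b + (i : A) + s + (κ • a - i) = l • a + b + s := by
      intro i s
      rw [h.la]; abel
    unfold tt
    simp only [es, Finset.sum_add_distrib]
    congr 1
    · congr 1
      · rw [← s_neg L (fun i => w (g (κ • a + κ • b + i)) (g (κ • a + i)))]
        refine Finset.sum_congr rfl fun i _ => ?_
        have e4 : ∑ s : K, w (g (a + b + i + s)) (g (κ • a - i)) =
            w (∑ s : K, g (a + b + i + s)) (g (κ • a - i)) := by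
          simp only [map_sum, LinearMap.sum_apply]
        rw [e4, p1 i]
        simp only [sub_eq_add_neg]
      · rw [← gx]
        simp only [map_sum, LinearMap.sum_apply]
        exact Finset.sum_comm
    · rw [Finset.sum_comm]
      refine Finset.sum_congr rfl fun s _ => ?_
      rw [← map_sum, p2 s]
  have s2 : ∑ s : K, tt w g (l • a + b + s) (κ • b) =
      w (∑ s : K, g (l • a + b + s)) (g (κ • b)) + w (g (κ • b)) (g (l • κ • (a + b))) +
      ∑ s : K, w (g (l • a + l • b + s)) (g (l • a + b + s)) := by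
    have es : ∀ s : K, l • a + b + (s : A) + κ • b = l • a + l • b + s := by
      intro s
      rw [h.la b]; abel
    unfold tt
    simp only [es, Finset.sum_add_distrib]
    rw [← guv]
    simp only [map_sum, LinearMap.sum_apply]
  have s4 : ∑ i : L, tt w g (κ • a + i) (κ • b) =
      w (g (l • κ • a)) (g (κ • b)) + w (g (κ • b)) (g (l • κ • (a + b))) +
      ∑ i : L, w (g (κ • a + κ • b + i)) (g (κ • a + i)) := by
    have es : ∀ i : L, κ • a + (i : A) + κ • b = κ • a + κ • b + i := by
      intro i; abel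
    unfold tt
    simp only [es, Finset.sum_add_distrib]
    rw [← gxy, ← gx']
    simp only [map_sum, LinearMap.sum_apply]
  have s5 : ∑ s : K, w (g (l • a + b + s)) (g (l • a + l • b + s)) =
      - ∑ s : K, w (g (l • a + l • b + s)) (g (l • a + b + s)) := by
    rw [← Finset.sum_neg_distrib]
    exact Finset.sum_congr rfl fun s _ => w_swap h.alt _ _
  rw [s1, s2, s4, s5, gub]
  unfold tt
  by_cases h0 : l • κ • a + κ • b = 0
  · have e : g (κ • b) = g (l • κ • a) := by
      rw [eq_neg_of_add_eq_zero_right h0, h.even]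
    rw [if_pos h0, e]
    simp only [map_add, LinearMap.add_apply, h.alt]
    rw [w_swap h.alt (g (l • κ • a)) eK, w_swap h.alt (g (l • κ • a)) (g (l • κ • a + κ • b))]
    abel
  · rw [if_neg h0, add_zero,
      w_swap h.alt (g (l • κ • a)) (g (l • κ • a + κ • b)),
      w_swap h.alt (g (κ • b)) (g (l • κ • a + κ • b))]
    abel

end terms

end Pool.Agent.K4D2
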