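import Pool.Agent.Lib_helper24.K4D2.Terms2

/-!
Project K4M, target 2: the `ξ`-terms of the two summed four term relations.
-/

set_option autoImplicit false
set_option linter.unusedSectionVars false

namespace Pool.Agent.K4D2

open Finset Pool.Agent.K4ParP

variable {A B G H : Type*} [AddCommGroup A] [AddCommGroup B] [Module ℚ B]
  [AddCommGroup G] [Module ℚ G] [AddCommGroup H] [Module ℚ H]

/-- `D2` for the subgroup `K`: `∑_{k ∈ K} ξ(p,q+k) = κ⁻¹ ξ(p,κq)` -/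
def D2P (X : A → A → H) (κ : ℕ) (K : AddSubgroup A) [Fintype K] : Prop :=
  ∀ p q, ∑ k : K, X p (q + k) = (κ : ℚ)⁻¹ • X p (κ • q)

section xi

variable {w : G →ₗ[ℚ] G →ₗ[ℚ] B} {m : B →ₗ[ℚ] G →ₗ[ℚ] H} {g : A → G} {l κ : ℕ}
  {L K : AddSubgroup A} [Fintype L] [Fintype K] {eL eK : G}

lemma Loc.sym (h : Loc w m g l κ L K eL eK) (a b : A) :
    xi m (tt w g) g b a = xi m (tt w g) g a b := by
  unfold xi
  rw [(tt_isT h.alt h.even).swap a b, map_neg, LinearMap.neg_apply, ← map_neg, neg_sub]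

lemma Loc.self (h : Loc w m g l κ L K eL eK) (a : A) : xi m (tt w g) g a a = 0 := by
  unfold xi
  rw [sub_self, map_zero]

lemma Loc.k0 (h : Loc w m g l κ L K eL eK) : (κ : ℚ) ≠ 0 := Nat.cast_ne_zero.mpr h.hκ.ne'

lemma Loc.l0 (h : Loc w m g l κ L K eL eK) : (l : ℚ) ≠ 0 := by
  rw [h.hl]; exact Nat.cast_ne_zero.mpr (Nat.succ_ne_zero κ)

lemma cL_smul (h : Loc w m g l κ L K eL eK) (x : H) : ∑ _i : L, x = (l : ℚ) ^ 2 • x := by
  rw [Finset.sum_const, Finset.card_univ, h.cL, ← Nat.cast_smul_eq_nsmul ℚ, Nat.cast_pow]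

lemma cK_smul (h : Loc w m g l κ L K eL eK) (x : H) : ∑ _k : K, x = (κ : ℚ) ^ 2 • x := by
  rw [Finset.sum_const, Finset.card_univ, h.cK, ← Nat.cast_smul_eq_nsmul ℚ, Nat.cast_pow]


/-- E1 -/
lemma xiE1 (h : Loc w m g l κ L K eL eK) (u b : A) :
    ∑ j : L, ∑ _i : L, ∑ h : K, ∑ k : K, xi m (tt w g) g (u + h) (b + j + k) =
      ((l : ℚ) ^ 2 * ((κ : ℚ) ^ 2)⁻¹) • ∑ j : L, xi m (tt w g) g (κ • u) (κ • b + j) := by
  have e : ∀ j : L, ∑ h : K, ∑ k : K, xi m (tt w g) g (u + h) (b + j + k) =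
      ((κ : ℚ) ^ 2)⁻¹ • xi m (tt w g) g (κ • u) (κ • b - j) := by
    intro j
    rw [h.d1K, smul_add κ b, h.kL j, ← sub_eq_add_neg]
  simp only [e, cL_smul h]
  rw [← Finset.smul_sum, ← Finset.smul_sum, smul_smul,
    ← s_neg L (fun j => xi m (tt w g) g (κ • u) (κ • b + j))]
  simp only [sub_eq_add_neg]

/-- E2 -/
lemma xiE2 (h : Loc w m g l κ L K eL eK) (b c : A) :
    ∑ j : L, ∑ i : L, ∑ h : K, ∑ k : K, xi m (tt w g) g (b + j + k) (c + i + j + h + k) =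
      (((l : ℚ) ^ 2)⁻¹ * ((κ : ℚ) ^ 2)⁻¹) • xi m (tt w g) g (κ • l • b) (κ • l • c) := by
  have e1 : ∑ j : L, ∑ i : L, ∑ h : K, ∑ k : K,
      xi m (tt w g) g (b + j + k) (c + i + j + h + k) =
      ∑ j : L, ∑ i : L, ∑ k : K, ∑ h : K, xi m (tt w g) g (b + j + k) (c + i + h) := by
    refine Finset.sum_congr rfl fun j _ => ?_
    rw [← s_shift L (fun i => ∑ k : K, ∑ h : K, xi m (tt w g) g (b + j + k) (c + i + h)) j.2]
    refine Finset.sum_congr rfl fun i _ => ?_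
    rw [Finset.sum_comm]
    refine Finset.sum_congr rfl fun k _ => ?_
    rw [← s_shift K (fun h' => xi m (tt w g) g (b + j + k) (c + (i + j) + h')) k.2]
    refine Finset.sum_congr rfl fun h' _ => ?_
    congr 1; abel
  have e2 : ∑ j : L, ∑ i : L, ∑ k : K, ∑ h : K, xi m (tt w g) g (b + j + k) (c + i + h) =
      ∑ k : K, ∑ h : K, ∑ j : L, ∑ i : L, xi m (tt w g) g (b + k + j) (c + h + i) := by
    calc _ = ∑ j : L, ∑ k : K, ∑ h : K, ∑ i : L,
          xi m (tt w g) g (b + k + j) (c + h + i) := by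
          refine Finset.sum_congr rfl fun j _ => ?_
          rw [Finset.sum_comm]
          refine Finset.sum_congr rfl fun k _ => ?_
          rw [Finset.sum_comm]
          refine Finset.sum_congr rfl fun h' _ => Finset.sum_congr rfl fun i _ => ?_
          congr 1 <;> abel
      _ = _ := by
          rw [Finset.sum_comm]
          refine Finset.sum_congr rfl fun k _ => ?_
          rw [Finset.sum_comm]
  have e3 : ∀ k h' : K, ∑ j : L, ∑ i : L, xi m (tt w g) g (b + k + j) (c + h' + i) =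
      ((l : ℚ) ^ 2)⁻¹ • xi m (tt w g) g (l • b + k) (l • c + h') := by
    intro k h'
    rw [h.d1L, smul_add, smul_add, h.lK, h.lK]
  rw [e1, e2]
  simp only [e3]
  simp only [← Finset.smul_sum]
  rw [h.d1K, smul_smul]

/-- E3 and E6: `∑ ξ(c + j + k, x - i)` -/
lemma xiE6 (h : Loc w m g l κ L K eL eK)
    (d2 : D2P (xi m (tt w g) g) κ K) (c a : A) :
    ∑ j : L, ∑ i : L, ∑ _h : K, ∑ k : K, xi m (tt w g) g (c + j + k) (κ • a - i) =
      ((κ : ℚ) * ((l : ℚ) ^ 2)⁻¹) • xi m (tt w g) g (l • κ • a) (κ • l • c) := by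
  have e2 : ∑ j : L, ∑ i : L, ∑ _h : K, ∑ k : K, xi m (tt w g) g (c + j + k) (κ • a - i) =
      (κ : ℚ) ^ 2 • ∑ k : K, ∑ j : L, ∑ i : L, xi m (tt w g) g (c + k + j) (κ • a + i) := by
    simp only [cK_smul h]
    simp only [← Finset.smul_sum]
    congr 1
    calc _ = ∑ j : L, ∑ k : K, ∑ i : L, xi m (tt w g) g (c + k + j) (κ • a + i) := by
          refine Finset.sum_congr rfl fun j _ => ?_
          rw [Finset.sum_comm]
          refine Finset.sum_congr rfl fun k _ => ?_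
          rw [← s_neg L (fun i => xi m (tt w g) g (c + k + j) (κ • a + i))]
          refine Finset.sum_congr rfl fun i _ => ?_
          rw [sub_eq_add_neg]
          congr 1; abel
      _ = _ := Finset.sum_comm
  have e3 : ∀ k : K, ∑ j : L, ∑ i : L, xi m (tt w g) g (c + k + j) (κ • a + i) =
      ((l : ℚ) ^ 2)⁻¹ • xi m (tt w g) g (l • κ • a) (l • c + k) := by
    intro k
    rw [h.d1L, smul_add, h.lK, h.sym]
  rw [e2]
  simp only [e3]
  rw [← Finset.smul_sum, d2, smul_smul, smul_smul]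
  congr 1
  have := h.k0
  field_simp

lemma xiE3 (h : Loc w m g l κ L K eL eK)
    (d2 : D2P (xi m (tt w g) g) κ K) (c a : A) :
    ∑ j : L, ∑ i : L, ∑ h : K, ∑ k : K, xi m (tt w g) g (c + i + j + h + k) (κ • a - i) =
      ((κ : ℚ) * ((l : ℚ) ^ 2)⁻¹) • xi m (tt w g) g (l • κ • a) (κ • l • c) := by
  rw [← xiE6 h d2 c a, Finset.sum_comm]
  conv_rhs => rw [Finset.sum_comm]
  refine Finset.sum_congr rfl fun i _ => ?_
  rw [← s_shift L (fun j => ∑ _h : K, ∑ k : K, xi m (tt w g) g (c + j + k) (κ • a - i)) i.2]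
  refine Finset.sum_congr rfl fun j _ => Finset.sum_congr rfl fun h' _ => ?_
  rw [← s_shift K (fun k => xi m (tt w g) g (c + (j + i) + k) (κ • a - i)) h'.2]
  refine Finset.sum_congr rfl fun k _ => ?_
  congr 1; abel

/-- E4 -/
lemma xiE4 (h : Loc w m g l κ L K eL eK)
    (d2 : D2P (xi m (tt w g) g) κ K) (a u : A) :
    ∑ _j : L, ∑ i : L, ∑ h : K, ∑ _k : K, xi m (tt w g) g (κ • a - i) (u + h) =
      ((l : ℚ) ^ 2 * κ) • ∑ i : L, xi m (tt w g) g (κ • u) (κ • a + i) := by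
  simp only [cK_smul h, cL_smul h]
  simp only [← Finset.smul_sum]
  have e : ∀ i : L, ∑ h : K, xi m (tt w g) g (κ • a - i) (u + h) =
      (κ : ℚ)⁻¹ • xi m (tt w g) g (κ • u) (κ • a + -i) := by
    intro i
    rw [d2, h.sym, sub_eq_add_neg]
  simp only [e]
  rw [← Finset.smul_sum, s_neg L (fun i => xi m (tt w g) g (κ • u) (κ • a + i)), smul_smul,
    smul_smul]
  congr 1
  have := h.k0
  field_simp

/-- E5 -/
lemma xiE5 (h : Loc w m g l κ L K eL eK) (u c : A) :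
    ∑ j : L, ∑ i : L, ∑ h : K, ∑ k : K, xi m (tt w g) g (u + h) (c + i + j + h + k) =
      ((l : ℚ) ^ 2 * ((κ : ℚ) ^ 2)⁻¹) • ∑ j : L, xi m (tt w g) g (κ • u) (κ • c + j) := by
  rw [← xiE1 h u c, Finset.sum_comm]
  conv_rhs => rw [Finset.sum_comm]
  refine Finset.sum_congr rfl fun i _ => ?_
  rw [← s_shift L (fun j => ∑ h : K, ∑ k : K, xi m (tt w g) g (u + h) (c + j + k)) i.2]
  refine Finset.sum_congr rfl fun j _ => Finset.sum_congr rfl fun h' _ => ?_
  rw [← s_shift K (fun k => xi m (tt w g) g (u + h') (c + (j + i) + k)) h'.2]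
  refine Finset.sum_congr rfl fun k _ => ?_
  congr 1; abel

/-- E8 -/
lemma xiE8 (h : Loc w m g l κ L K eL eK) (u c : A) :
    ∑ _j : L, ∑ _i : L, ∑ h : K, ∑ k : K, xi m (tt w g) g (u + h) (c + h + k) =
      ((l : ℚ) ^ 4 * ((κ : ℚ) ^ 2)⁻¹) • xi m (tt w g) g (κ • u) (κ • c) := by
  simp only [cL_smul h]
  have e : ∑ h : K, ∑ k : K, xi m (tt w g) g (u + h) (c + h + k) =
      ((κ : ℚ) ^ 2)⁻¹ • xi m (tt w g) g (κ • u) (κ • c) := by
    rw [← h.d1K]
    refine Finset.sum_congr rfl fun h' _ => ?_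
    rw [← s_shift K (fun k => xi m (tt w g) g (u + h') (c + k)) h'.2]
    refine Finset.sum_congr rfl fun k _ => ?_
    congr 1; abel
  rw [e, smul_smul, smul_smul]
  congr 1; ring

/-- E9 -/
lemma xiE9 (h : Loc w m g l κ L K eL eK)
    (d2 : D2P (xi m (tt w g) g) κ K) (s b : A) :
    ∑ j : L, ∑ _i : L, ∑ h : K, ∑ k : K, xi m (tt w g) g (s + h + k) (κ • b - j) =
      ((l : ℚ) ^ 2 * κ) • ∑ j : L, xi m (tt w g) g (κ • s) (κ • b + j) := by
  rw [← xiE4 h d2 b s, Finset.sum_comm]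
  refine Finset.sum_congr rfl fun i _ => Finset.sum_congr rfl fun j _ => ?_
  conv_rhs => rw [Finset.sum_comm]
  refine Finset.sum_congr rfl fun h' _ => ?_
  rw [← s_shift K (fun k => xi m (tt w g) g (κ • b - j) (s + k)) h'.2]
  refine Finset.sum_congr rfl fun k _ => ?_
  rw [h.sym]
  congr 1; abel

/-- E10 -/
lemma xiE10 (h : Loc w m g l κ L K eL eK)
    (d2 : D2P (xi m (tt w g) g) κ K) (b : A) :
    ∑ j : L, ∑ _i : L, ∑ _h : K, ∑ k : K, xi m (tt w g) g (κ • b - j) (b + j + k) = 0 := by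
  refine Finset.sum_eq_zero fun j _ => Finset.sum_eq_zero fun i _ =>
    Finset.sum_eq_zero fun h' _ => ?_
  rw [d2, smul_add, h.kL, ← sub_eq_add_neg, h.self, smul_zero]

/-- E11 -/
lemma xiE11 (h : Loc w m g l κ L K eL eK) (b s : A) :
    ∑ j : L, ∑ _i : L, ∑ h : K, ∑ k : K, xi m (tt w g) g (b + j + k) (s + h + k) =
      ((l : ℚ) ^ 2 * ((κ : ℚ) ^ 2)⁻¹) • ∑ j : L, xi m (tt w g) g (κ • s) (κ • b + j) := by
  rw [← xiE1 h s b]
  refine Finset.sum_congr rfl fun j _ => Finset.sum_congr rfl fun i _ => ?_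
  rw [Finset.sum_comm]
  conv_rhs => rw [Finset.sum_comm]
  refine Finset.sum_congr rfl fun k _ => ?_
  rw [← s_shift K (fun h' => xi m (tt w g) g (s + h') (b + j + k)) k.2]
  refine Finset.sum_congr rfl fun h' _ => ?_
  rw [h.sym]
  congr 1; abel

/-- E12 -/
lemma xiE12 (h : Loc w m g l κ L K eL eK)
    (d2 : D2P (xi m (tt w g) g) κ K) (u b : A) :
    ∑ j : L, ∑ _i : L, ∑ h : K, ∑ _k : K, xi m (tt w g) g (u + h) (κ • b - j) =
      ((l : ℚ) ^ 2 * κ) • ∑ j : L, xi m (tt w g) g (κ • u) (κ • b + j) := by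
  rw [← xiE4 h d2 b u, Finset.sum_comm]
  refine Finset.sum_congr rfl fun i _ => Finset.sum_congr rfl fun j _ =>
    Finset.sum_congr rfl fun h' _ => Finset.sum_congr rfl fun k _ => ?_
  rw [h.sym]

end xi

end Pool.Agent.K4D2
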